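import Pool.Agent.Q74.BL.Upper

/-! # Project BL: lower bound for the proportion -/

set_option autoImplicit false

namespace Pool.Agent.Q74.BL

open Finset
open Pool.Agent.Q158.Pair (T T_even T_odd)

/-- first base in the class of `x` modulo `2 ^ s` -/
def cl (s : ℕ) (x : ℕ) (M : ℤ) : ℤ := -(((x : ℤ) - M) / 2 ^ s)

theorem cl_le (s x : ℕ) (M N : ℤ) : cl s x M ≤ N ↔ M ≤ 2 ^ s * N + x := by
  unfold cl
  have h2 : (0 : ℤ) < 2 ^ s := by positivity
  rw [neg_le, Int.le_ediv_iff_mul_le h2]
  constructor <;> intro h <;> nlinarith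

theorem cl_mono (s x : ℕ) {M M' : ℤ} (h : M ≤ M') : cl s x M ≤ cl s x M' := by
  rw [cl_le]
  exact h.trans ((cl_le s x M' _).1 le_rfl)

/-- number of bases -/
def cn (s x : ℕ) (M : ℤ) (L : ℕ) : ℕ := (cl s x (M + L) - cl s x M).toNat

theorem cl_add (s x : ℕ) (M : ℤ) (L : ℕ) : cl s x M + cn s x M L = cl s x (M + L) := by
  unfold cn
  have := cl_mono s x (show M ≤ M + (L : ℤ) by omega)
  omega

theorem cn_ge (s x : ℕ) (M : ℤ) (L : ℕ) : (L : ℤ) < 2 ^ s * (cn s x M L + 1) := by
  have h1 := cl_add s x M L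
  have h2 := (cl_le s x (M + L) _).1 le_rfl
  have h3 : ¬ cl s x M ≤ cl s x M - 1 := by omega
  rw [cl_le] at h3
  push Not at h3
  nlinarith

theorem sum_classes (s : ℕ) (M : ℤ) (L : ℕ) (f : ℤ → ℝ) : ∑ n ∈ Ico M (M + L), f n =
    ∑ x ∈ range (2 ^ s), ∑ N ∈ Ico (cl s x M) (cl s x M + cn s x M L), f (2 ^ s * N + x) := by
  have h2 : (0 : ℤ) < 2 ^ s := by positivity
  rw [← sum_fiberwise_of_maps_to (s := Ico M (M + (L : ℤ))) (t := range (2 ^ s)) (g := fun n => (n % 2 ^ s).toNat)]
  · apply sum_congr rfl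
    intro x hx
    have hx' : (x : ℤ) < 2 ^ s := by exact_mod_cast mem_range.1 hx
    have hx0 : (0 : ℤ) ≤ x := Int.natCast_nonneg x
    symm
    apply sum_nbij' (fun N => 2 ^ s * N + (x : ℤ)) (fun n => n / 2 ^ s)
    · intro N hN
      rw [mem_Ico, cl_add] at hN
      rw [mem_filter, mem_Ico]
      refine ⟨⟨(cl_le s x M N).1 hN.1, ?_⟩, ?_⟩
      · by_contra hc
        push Not at hc
        have := (cl_le s x (M + L) N).2 hc
        omega
      · rw [add_comm, Int.add_mul_emod_self_left, Int.emod_eq_of_lt hx0 hx']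
        exact Int.toNat_natCast x
    · intro n hn
      rw [mem_filter, mem_Ico] at hn
      rw [mem_Ico, cl_add]
      have e0 := Int.mul_ediv_add_emod n (2 ^ s)
      have e1 : n % 2 ^ s = x := by
        have := Int.emod_nonneg n h2.ne'
        omega
      rw [e1] at e0
      constructor
      · rw [cl_le, e0]
        exact hn.1.1
      · by_contra hc
        push Not at hc
        rw [cl_le, e0] at hc
        omega
    · intro N _
      rw [add_comm, Int.add_mul_ediv_left _ _ h2.ne', Int.ediv_eq_zero_of_lt hx0 hx', zero_add]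
    · intro n hn
      rw [mem_filter] at hn
      have e0 := Int.mul_ediv_add_emod n (2 ^ s)
      have e1 : n % 2 ^ s = x := by
        have := Int.emod_nonneg n h2.ne'
        omega
      rw [e1] at e0
      exact e0
    · intro N _
      rfl
  · intro n _
    rw [mem_range]
    have h3 := Int.emod_lt_of_pos n h2
    have h4 := Int.emod_nonneg n h2.ne'
    have h5 : ((n % 2 ^ s).toNat : ℤ) < ((2 ^ s : ℕ) : ℤ) := by
      push_cast
      omega
    exact_mod_cast h5

theorem sum_cn (s : ℕ) (M : ℤ) (L : ℕ) : ∑ x ∈ range (2 ^ s), (cn s x M L : ℝ) = L := by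
  have h := sum_classes s M L (fun _ => 1)
  simp only [sum_const, Int.card_Ico, nsmul_eq_mul, mul_one] at h
  have e1 : (M + (L : ℤ) - M).toNat = L := by omega
  have e2 : ∀ x : ℕ, (cl s x M + (cn s x M L : ℤ) - cl s x M).toNat = cn s x M L := by intro x; omega
  simp only [e1, e2] at h
  exact h.symm

theorem T_pow_even (s : ℕ) : ∀ N : ℤ, T^[s] (2 ^ s * N) = N := by
  induction s with
  | zero => intro N; simp
  | succ s ih =>
    intro N
    rw [Function.iterate_succ_apply, pow_succ, mul_comm ((2 : ℤ) ^ s) 2, mul_assoc, T_even, ih]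

theorem T_pow_odd (s : ℕ) : ∀ N : ℤ, T^[s] (2 ^ s * N - 1) = 3 ^ s * N - 1 := by
  induction s with
  | zero => intro N; simp
  | succ s ih =>
    intro N
    have e1 : 2 ^ (s + 1) * N - 1 = 2 * (2 ^ s * N - 1) + 1 := by ring
    have e2 : 3 * (2 ^ s * N - 1) + 2 = 2 ^ s * (3 * N) - 1 := by ring
    rw [Function.iterate_succ_apply, e1, T_odd, e2, ih]
    ring

theorem NV_two {A B t : ℕ} {n : ℤ} {z z' : ℕ × ℤ} (hz : z ∈ fam A B) (hz' : z' ∈ fam A B)
    (h : T^[t] (3 ^ z.1 * n + z.2) ≠ T^[t] (3 ^ z'.1 * n + z'.2)) : 2 ≤ NV A B t n := by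
  unfold NV
  have : 1 < ((fam A B).image (fun z => T^[t] (3 ^ z.1 * n + z.2))).card := by
    rw [Finset.one_lt_card]
    exact ⟨_, mem_image_of_mem _ hz, _, mem_image_of_mem _ hz', h⟩
  exact this

open Classical in
/-- the number of families which have not merged -/
noncomputable def cnt (A B t : ℕ) (M : ℤ) (L : ℕ) : ℝ := ∑ n ∈ Ico M (M + (L : ℤ)), (if 2 ≤ NV A B t n then (1 : ℝ) else 0)

theorem cnt_eq (A B t : ℕ) (M : ℤ) (L : ℕ) : ({n : ℤ | M ≤ n ∧ n < M + L ∧ 2 ≤ NV A B t n}.ncard : ℝ) = cnt A B t M L := by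
  classical
  rw [Pool.Agent.Q158.Pair.ncard_eq (fun n => 2 ≤ NV A B t n), card_filter]
  unfold cnt
  push_cast
  apply sum_congr rfl
  intro n _
  split_ifs <;> rfl

theorem mem_fam {A B : ℕ} {a : ℕ} {b : ℤ} : (a, b) ∈ fam A B ↔ a ≤ A ∧ -(B : ℤ) ≤ b ∧ b ≤ B := by
  unfold fam
  rw [mem_product, mem_range, mem_Icc]
  simp only
  omega

/-- one pair of forms -/
theorem low_pair {A B : ℕ} {a : ℕ} {b : ℤ} (hab : (a, b) ≠ (0, 0)) (hm : (a, b) ∈ fam A B) (t : ℕ) (ht : 1 ≤ t) (M : ℤ)
    (L : ℕ) (hL : 64 * t * 2 ^ t ≤ L) : 1 / 64 * min 1 ((1 + a) / √t) * L ≤ cnt A B t M L := by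
  classical
  refine (Pool.Agent.Q158.Pair.lower a b hab t ht M L hL).trans ?_
  rw [Pool.Agent.Q158.Pair.ncard_eq (fun n => T^[t] n ≠ T^[t] (3 ^ a * n + b)), card_filter]
  unfold cnt
  push_cast
  apply sum_le_sum
  intro n _
  by_cases h : T^[t] n ≠ T^[t] (3 ^ a * n + b)
  · rw [if_pos h, if_pos]
    refine NV_two (z := (0, 0)) (z' := (a, b)) (mem_fam.2 ⟨by omega, by omega, by omega⟩) hm ?_
    simpa using h
  · rw [if_neg h]
    split_ifs <;> norm_num

/-- the block: two forms which depend on the class of `n` -/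
theorem low_block {A B : ℕ} (s r : ℕ) (hs : 1 ≤ s) (hr : 1 ≤ r) (hsB : 2 ^ s ≤ B) (M : ℤ) (L : ℕ)
    (hL : 64 * (s + r) * 2 ^ (s + r) ≤ L) : 1 / 64 * min 1 ((1 + s) / √r) * L ≤ cnt A B (s + r) M L := by
  classical
  unfold cnt
  rw [sum_classes s, ← sum_cn s M L, mul_sum]
  apply sum_le_sum
  intro x hx
  have hx' : x < 2 ^ s := mem_range.1 hx
  set δ : ℤ := if x = 0 then 0 else 1 with hδ
  set b : ℤ := 3 ^ s * (1 - δ) - 1 with hb
  have hL' : 64 * r * 2 ^ r ≤ cn s x M L := by
    have h1 := cn_ge s x M L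
    have h2 : (64 * (s + r) * 2 ^ (s + r) : ℤ) ≤ L := by exact_mod_cast hL
    have h3 : (2 ^ s : ℤ) * (64 * (s + r) * 2 ^ r) < 2 ^ s * (cn s x M L + 1) := by
      calc (2 ^ s : ℤ) * (64 * (s + r) * 2 ^ r) = 64 * (s + r) * 2 ^ (s + r) := by rw [pow_add]; ring
        _ ≤ L := h2
        _ < _ := h1
    have h4 : (64 * (s + r) * 2 ^ r : ℤ) < cn s x M L + 1 := lt_of_mul_lt_mul_left h3 (by positivity)
    have h5 : 64 * (s + r) * 2 ^ r ≤ cn s x M L := by
      have : 64 * (s + r) * 2 ^ r < cn s x M L + 1 := by exact_mod_cast h4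
      omega
    refine le_trans ?_ h5
    apply Nat.mul_le_mul_right
    omega
  have h1 := Pool.Agent.Q158.Pair.lower s b (by
    intro h
    rw [Prod.mk.injEq] at h
    omega) r hr (cl s x M + δ) (cn s x M L) hL'
  refine h1.trans ?_
  rw [Pool.Agent.Q158.Pair.ncard_eq (fun n => T^[r] n ≠ T^[r] (3 ^ s * n + b)), card_filter]
  push_cast
  have h2 : ∑ N ∈ Ico (cl s x M + δ) (cl s x M + δ + (cn s x M L : ℤ)),
      (if T^[r] N ≠ T^[r] (3 ^ s * N + b) then (1 : ℝ) else 0) =
      ∑ N ∈ Ico (cl s x M) (cl s x M + (cn s x M L : ℤ)),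
      (if T^[r] (N + δ) ≠ T^[r] (3 ^ s * (N + δ) + b) then (1 : ℝ) else 0) := by
    rw [Pool.Agent.Q158.Pair.sum_Ico_int, Pool.Agent.Q158.Pair.sum_Ico_int]
    apply sum_congr rfl
    intro i _
    have e : cl s x M + δ + (i : ℤ) = cl s x M + i + δ := by ring
    rw [e]
  rw [h2]
  apply sum_le_sum
  intro N _
  by_cases h : T^[r] (N + δ) ≠ T^[r] (3 ^ s * (N + δ) + b)
  · rw [if_pos h, if_pos]
    have hx1 : (x : ℤ) + 1 ≤ 2 ^ s := by exact_mod_cast hx'
    have hB' : (2 : ℤ) ^ s ≤ B := by exact_mod_cast hsB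
    refine NV_two (z := (0, 2 ^ s * δ - x)) (z' := (0, 2 ^ s - 1 - x)) (mem_fam.2 ⟨by omega, ?_, ?_⟩)
      (mem_fam.2 ⟨by omega, by omega, by omega⟩) ?_
    · rw [hδ]
      split_ifs with h0
      · subst h0
        simp
      · omega
    · rw [hδ]
      split_ifs with h0
      · subst h0
        simp
      · omega
    · simp only
      have e1 : 3 ^ 0 * (2 ^ s * N + (x : ℤ)) + (2 ^ s * δ - x) = 2 ^ s * (N + δ) := by ring
      have e2 : 3 ^ 0 * (2 ^ s * N + (x : ℤ)) + (2 ^ s - 1 - x) = 2 ^ s * (N + 1) - 1 := by ring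
      rw [e1, e2, Nat.add_comm s r, Function.iterate_add_apply, Function.iterate_add_apply, T_pow_even, T_pow_odd]
      have e3 : 3 ^ s * (N + δ) + b = 3 ^ s * (N + 1) - 1 := by rw [hb]; ring
      rw [← e3]
      exact h
  · rw [if_neg h]
    split_ifs <;> norm_num

/-- JOB LowP -/
theorem lowP : S_LowP := by
  refine ⟨1 / 400, by norm_num, fun A B t hAB ht M L hL => ?_⟩
  rw [cnt_eq]
  have ht0 : (0 : ℝ) < t := by exact_mod_cast ht
  have hst : 0 < √(t : ℝ) := Real.sqrt_pos.2 ht0
  have hL0 : (0 : ℝ) ≤ L := Nat.cast_nonneg L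
  have hA0 : (0 : ℝ) ≤ A := Nat.cast_nonneg A
  have hB0 : (0 : ℝ) ≤ B := Nat.cast_nonneg B
  have hlB0 : 0 ≤ Real.log (1 + (B : ℝ)) := Real.log_nonneg (by linarith)
  set c := cnt A B t M L with hc
  -- (a)
  have h1 : 1 / 64 * min 1 ((1 + A) / √t) * L ≤ c := by
    rcases Nat.eq_zero_or_pos A with hA | hA
    · have hB : 1 ≤ B := by
        rcases Nat.eq_zero_or_pos B with hB | hB
        · exact absurd (by rw [hA, hB]) hAB
        · exact hB
      have := low_pair (A := A) (B := B) (a := 0) (b := 1) (by simp) (mem_fam.2 ⟨by omega, by omega, by omega⟩) t ht M L hL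
      rw [hA]
      push_cast at this ⊢
      exact this
    · exact low_pair (A := A) (B := B) (a := A) (b := 0) (by simp; omega) (mem_fam.2 ⟨le_rfl, by omega, by omega⟩) t ht M L hL
  -- (b)
  have h2 : 1 / 128 * min 1 (Real.log (1 + B) / √t) * L ≤ c := by
    rcases Nat.lt_or_ge B 2 with hB | hB
    · refine le_trans ?_ h1
      apply mul_le_mul_of_nonneg_right _ hL0
      have h3 : Real.log (1 + (B : ℝ)) ≤ 1 + A := by
        have h4 := Real.log_le_sub_one_of_pos (show (0 : ℝ) < 1 + B by positivity)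
        have h5 : (B : ℝ) ≤ 1 := by exact_mod_cast (by omega : B ≤ 1)
        linarith
      have h4 : min 1 (Real.log (1 + (B : ℝ)) / √t) ≤ min 1 ((1 + A) / √t) :=
        min_le_min le_rfl (div_le_div_of_nonneg_right h3 hst.le)
      have h5 : 0 ≤ min 1 ((1 + A) / √(t : ℝ)) := by positivity
      linarith
    · rcases Nat.lt_or_ge t 2 with ht2 | ht2
      · have ht1 : t = 1 := by omega
        refine le_trans ?_ h1
        apply mul_le_mul_of_nonneg_right _ hL0
        have h4 : min 1 ((1 + A) / √(t : ℝ)) = 1 := by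
          rw [ht1]
          simp
        rw [h4]
        have := min_le_left 1 (Real.log (1 + (B : ℝ)) / √t)
        linarith
      · set s := min (Nat.log 2 B) (t / 2) with hs
        have hlog : 1 ≤ Nat.log 2 B := by
          have := Nat.log_pos (by norm_num : 1 < 2) hB
          omega
        have hs1 : 1 ≤ s := by
          rw [hs]
          omega
        have hst2 : s ≤ t / 2 := min_le_right _ _
        obtain ⟨r, hr⟩ := Nat.exists_eq_add_of_le (show s ≤ t by omega)
        have hr1 : 1 ≤ r := by omega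
        have hsB : 2 ^ s ≤ B := by
          refine le_trans (Nat.pow_le_pow_right (by norm_num) (min_le_left _ _)) ?_
          exact Nat.pow_log_le_self 2 (by omega)
        have h3 := low_block (A := A) s r hs1 hr1 hsB M L (by rw [← hr]; exact hL)
        rw [← hr] at h3
        refine le_trans ?_ h3
        apply mul_le_mul_of_nonneg_right _ hL0
        have hr0 : (0 : ℝ) < r := by exact_mod_cast hr1
        have hsr : √(r : ℝ) ≤ √t := Real.sqrt_le_sqrt (by exact_mod_cast (by omega : r ≤ t))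
        have h4 : (1 + (s : ℝ)) / √t ≤ (1 + s) / √r :=
          div_le_div_of_nonneg_left (by positivity) (Real.sqrt_pos.2 hr0) hsr
        have h5 : min 1 ((1 + (s : ℝ)) / √t) ≤ min 1 ((1 + (s : ℝ)) / √r) := min_le_min le_rfl h4
        have h6 : 1 / 128 * min 1 (Real.log (1 + (B : ℝ)) / √t) ≤ 1 / 64 * min 1 ((1 + (s : ℝ)) / √t) := by
          rcases le_total (Nat.log 2 B) (t / 2) with hh | hh
          · have hs' : s = Nat.log 2 B := min_eq_left hh
            have h7 : Real.log (1 + (B : ℝ)) ≤ 1 + s := by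
              have h8 : 1 + B ≤ 2 ^ (s + 1) := by
                have := Nat.lt_pow_succ_log_self (by norm_num : 1 < 2) B
                rw [hs']
                omega
              have h9 : Real.log (1 + (B : ℝ)) ≤ Real.log (2 ^ (s + 1)) := by
                apply Real.log_le_log (by positivity)
                exact_mod_cast h8
              rw [Real.log_pow] at h9
              have h10 := Real.log_two_lt_d9
              push_cast at h9
              nlinarith
            have h8 : min 1 (Real.log (1 + (B : ℝ)) / √t) ≤ min 1 ((1 + (s : ℝ)) / √t) :=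
              min_le_min le_rfl (div_le_div_of_nonneg_right h7 hst.le)
            have h9 : 0 ≤ min 1 ((1 + (s : ℝ)) / √(t : ℝ)) := by positivity
            linarith
          · have hs' : s = t / 2 := min_eq_right hh
            have h7 : 1 / 2 ≤ (1 + (s : ℝ)) / √t := by
              rw [le_div_iff₀ hst]
              have h8 : (t : ℝ) / 2 ≤ 1 + s := by
                have : t ≤ 2 * (1 + s) := by omega
                have : (t : ℝ) ≤ 2 * (1 + s) := by exact_mod_cast this
                linarith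
              have h9 : √(t : ℝ) ≤ t := by
                apply Real.sqrt_le_iff.2
                refine ⟨ht0.le, ?_⟩
                have : (1 : ℝ) ≤ t := by exact_mod_cast ht
                nlinarith
              linarith
            have h8 : 1 / 2 ≤ min 1 ((1 + (s : ℝ)) / √t) := le_min (by norm_num) h7
            have h9 := min_le_left 1 (Real.log (1 + (B : ℝ)) / √t)
            linarith
        linarith
  -- the sum
  have h3 : min 1 ((1 + A + Real.log (1 + B)) / √t) ≤ min 1 ((1 + A) / √t) + min 1 (Real.log (1 + B) / √t) := by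
    have e : (1 + (A : ℝ) + Real.log (1 + B)) / √t = (1 + A) / √t + Real.log (1 + B) / √t := add_div _ _ _
    rw [e]
    have p1 : 0 ≤ (1 + (A : ℝ)) / √t := by positivity
    have p2 : 0 ≤ Real.log (1 + (B : ℝ)) / √t := by positivity
    rcases le_total 1 ((1 + (A : ℝ)) / √t) with q1 | q1
    · rw [min_eq_left q1]
      have := min_le_left 1 ((1 + (A : ℝ)) / √t + Real.log (1 + (B : ℝ)) / √t)
      have : 0 ≤ min 1 (Real.log (1 + (B : ℝ)) / √t) := by positivity
      linarith
    · rw [min_eq_right q1]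
      rcases le_total 1 (Real.log (1 + (B : ℝ)) / √t) with q2 | q2
      · rw [min_eq_left q2]
        have := min_le_left 1 ((1 + (A : ℝ)) / √t + Real.log (1 + (B : ℝ)) / √t)
        linarith
      · rw [min_eq_right q2]
        exact min_le_right _ _
  have h4 : 1 / 400 * min 1 ((1 + A + Real.log (1 + B)) / √t) * L ≤
      1 / 400 * (min 1 ((1 + A) / √t) + min 1 (Real.log (1 + B) / √t)) * L :=
    mul_le_mul_of_nonneg_right (by linarith) hL0
  have e1 : 1 / 400 * (min 1 ((1 + (A : ℝ)) / √t) + min 1 (Real.log (1 + B) / √t)) * L =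
      64 / 400 * (1 / 64 * min 1 ((1 + (A : ℝ)) / √t) * L) + 128 / 400 * (1 / 128 * min 1 (Real.log (1 + B) / √t) * L) := by
    ring
  have hc0 : 0 ≤ c := by
    rw [hc]
    unfold cnt
    exact sum_nonneg fun n _ => by split_ifs <;> norm_num
  linarith

end Pool.Agent.Q74.BL
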