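import Pool.Agent.Q74.KP.Avg
import Pool.Agent.Q74.KP.Lim

/-! # Project BL (whole families of affine images merge): definitions and lemma jobs

`T` is the 3x+1 map (`Pool.Agent.Q158.Pair.T`). For a family of forms `3 ^ a * n + b`, `a ≤ A`, `|b| ≤ B`, `NV A B t n` is
the number of different values of `T^t` on the family. Theorem: `NV = 1` except for a proportion of order
`(1 + A + log (1 + B)) / √t` of the `n`, and the mean of `NV - 1` is of this order. -/

set_option autoImplicit false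

namespace Pool.Agent.Q74.BL

open Finset
open Pool.Agent.Q158.Pair (T)

/-- the family -/
noncomputable def fam (A B : ℕ) : Finset (ℕ × ℤ) := range (A + 1) ×ˢ Icc (-(B : ℤ)) B

/-- number of different values at time `t` -/
noncomputable def NV (A B t : ℕ) (n : ℤ) : ℕ := ((fam A B).image (fun z => T^[t] (3 ^ z.1 * n + z.2))).card

/-- JOB LowP: lower bound for the proportion of families with at least two values -/
def S_LowP : Prop := ∃ c : ℝ, 0 < c ∧ ∀ A B t : ℕ, (A, B) ≠ (0, 0) → 1 ≤ t → ∀ (M : ℤ) (L : ℕ), 64 * t * 2 ^ t ≤ L →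
  c * min 1 ((1 + A + Real.log (1 + B)) / √t) * L ≤
    ({n : ℤ | M ≤ n ∧ n < M + L ∧ 2 ≤ NV A B t n}.ncard : ℝ)

/-- JOB LowM: lower bound for the mean number of values, long families -/
def S_LowM : Prop := ∃ c C₁ : ℝ, 0 < c ∧ 0 < C₁ ∧ ∀ A B t : ℕ, 1 ≤ t → C₁ * Real.log (2 + B) ≤ t →
  C₁ * √t ≤ 1 + A + Real.log (1 + B) → ∀ (M : ℤ) (L : ℕ), 64 * (t + A) * 2 ^ t ≤ L →
  c * ((1 + A + Real.log (1 + B)) / √t) * L ≤ ∑ n ∈ Ico M (M + L), (NV A B t n : ℝ)

end Pool.Agent.Q74.BL
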