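import Pool.Agent.Q74.BL.LowF

/-! # Project BL: the final form -/

set_option autoImplicit false

namespace Pool.Agent.Q74.BL

open Finset
open Pool.Agent.Q158.Pair (T T_even T_odd T_iter_abs)
open Pool.Agent.Q74.AR (oc oc_le oc_per oc_even oc_odd)

/-- the mean number of values, lower bound -/
theorem mean_low : ∃ c C₁ : ℝ, 0 < c ∧ 0 < C₁ ∧ ∀ A B t : ℕ, (A, B) ≠ (0, 0) → 1 ≤ t →
    C₁ * (1 + Real.log (1 + A) + Real.log (1 + B)) ≤ t → ∀ (M : ℤ) (L : ℕ), 64 * (t + A) * 2 ^ t ≤ L →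
    (1 + c * ((1 + A + Real.log (1 + B)) / √t)) * L ≤ ∑ n ∈ Ico M (M + (L : ℤ)), (NV A B t n : ℝ) := by
  classical
  obtain ⟨c₁, hc₁, h1⟩ := lowP
  obtain ⟨c₂, C₂, hc₂, hC₂, h2⟩ := lowM
  refine ⟨min (c₁ / (1 + C₂)) (c₁ * c₂ / (1 + c₁)), C₂, by positivity, hC₂, fun A B t hAB ht htC M L hL => ?_⟩
  have ht0 : (0 : ℝ) < t := by exact_mod_cast ht
  have hst : 0 < √(t : ℝ) := Real.sqrt_pos.2 ht0
  have hL0 : (0 : ℝ) ≤ L := Nat.cast_nonneg L
  have hA0 : (0 : ℝ) ≤ A := Nat.cast_nonneg A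
  have hB0 : (0 : ℝ) ≤ B := Nat.cast_nonneg B
  have hlA0 : 0 ≤ Real.log (1 + (A : ℝ)) := Real.log_nonneg (by linarith)
  have hlB0 : 0 ≤ Real.log (1 + (B : ℝ)) := Real.log_nonneg (by linarith)
  set R := 1 + (A : ℝ) + Real.log (1 + B) with hR
  have hR0 : 0 < R := by linarith
  set X := R / √t with hX
  have hX0 : 0 < X := by positivity
  have hL' : 64 * t * 2 ^ t ≤ L := le_trans (Nat.mul_le_mul_right _ (by omega)) hL
  -- the proportion
  have h3 := h1 A B t hAB ht M L hL'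
  rw [cnt_eq] at h3
  have h4 : cnt A B t M L ≤ ∑ n ∈ Ico M (M + (L : ℤ)), ((NV A B t n : ℝ) - 1) := by
    unfold cnt
    apply sum_le_sum
    intro n _
    split_ifs with h
    · have : (2 : ℝ) ≤ NV A B t n := by exact_mod_cast h
      linarith
    · have : (1 : ℝ) ≤ NV A B t n := by exact_mod_cast NV_pos A B t n
      linarith
  have h5 : ∑ n ∈ Ico M (M + (L : ℤ)), ((NV A B t n : ℝ) - 1) = ∑ n ∈ Ico M (M + (L : ℤ)), (NV A B t n : ℝ) - L := by
    rw [sum_sub_distrib, sum_const, Int.card_Ico, nsmul_eq_mul, mul_one]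
    congr 2
    omega
  rw [h5] at h4
  have h6 : c₁ * min 1 X * L ≤ ∑ n ∈ Ico M (M + (L : ℤ)), (NV A B t n : ℝ) - L := h3.trans h4
  have hgoal : min (c₁ / (1 + C₂)) (c₁ * c₂ / (1 + c₁)) * X * L ≤ ∑ n ∈ Ico M (M + (L : ℤ)), (NV A B t n : ℝ) - L := by
    rcases le_total (C₂ * √t) R with hc | hc
    · -- long families
      have h7 := h2 A B t ht (by
        refine le_trans ?_ htC
        apply mul_le_mul_of_nonneg_left _ hC₂.le
        have h8 : Real.log (2 + (B : ℝ)) ≤ Real.log (2 * (1 + B)) := Real.log_le_log (by positivity) (by linarith)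
        rw [Real.log_mul (by norm_num) (by positivity)] at h8
        have := Real.log_two_lt_d9
        linarith) hc M L hL
      have h8 : min (c₁ / (1 + C₂)) (c₁ * c₂ / (1 + c₁)) * X ≤ c₁ * c₂ / (1 + c₁) * X :=
        mul_le_mul_of_nonneg_right (min_le_right _ _) hX0.le
      rcases le_total (c₂ * X) (1 + c₁) with hq | hq
      · -- the proportion is enough
        rcases le_total 1 X with hX1 | hX1
        · rw [min_eq_left hX1, mul_one] at h6
          have h9 : c₁ * c₂ / (1 + c₁) * X ≤ c₁ := by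
            rw [div_mul_eq_mul_div, div_le_iff₀ (by positivity)]
            nlinarith
          have h10 := mul_le_mul_of_nonneg_right (h8.trans h9) hL0
          linarith
        · rw [min_eq_right hX1] at h6
          have h9 : min (c₁ / (1 + C₂)) (c₁ * c₂ / (1 + c₁)) * X ≤ c₁ * X := by
            apply mul_le_mul_of_nonneg_right _ hX0.le
            refine (min_le_left _ _).trans ?_
            rw [div_le_iff₀ (by positivity)]
            nlinarith
          have h10 := mul_le_mul_of_nonneg_right h9 hL0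
          linarith
      · have h9 : c₁ * c₂ / (1 + c₁) * X ≤ c₂ * X - 1 := by
          rw [div_mul_eq_mul_div, div_le_iff₀ (by positivity)]
          nlinarith
        have h10 := mul_le_mul_of_nonneg_right (h8.trans h9) hL0
        have h11 : (c₂ * X - 1) * L = c₂ * X * L - L := by ring
        linarith
    · -- short families
      have hXC : X ≤ C₂ := by
        rw [hX, div_le_iff₀ hst]
        exact hc
      have h7 : min (c₁ / (1 + C₂)) (c₁ * c₂ / (1 + c₁)) * X ≤ c₁ * min 1 X := by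
        have h8 : min (c₁ / (1 + C₂)) (c₁ * c₂ / (1 + c₁)) * X ≤ c₁ / (1 + C₂) * X :=
          mul_le_mul_of_nonneg_right (min_le_left _ _) hX0.le
        refine h8.trans ?_
        rw [div_mul_eq_mul_div, div_le_iff₀ (by positivity)]
        rcases le_total 1 X with hX1 | hX1
        · rw [min_eq_left hX1]
          nlinarith
        · rw [min_eq_right hX1]
          nlinarith [mul_pos hc₁ hX0]
      have h8 := mul_le_mul_of_nonneg_right h7 hL0
      linarith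
  have e : (1 + min (c₁ / (1 + C₂)) (c₁ * c₂ / (1 + c₁)) * X) * L =
      L + min (c₁ / (1 + C₂)) (c₁ * c₂ / (1 + c₁)) * X * L := by ring
  rw [e]
  linarith

theorem inv_iter {S : Set ℤ} (hS : ∀ x, T x ∈ S ↔ x ∈ S) (i : ℕ) (x : ℤ) : T^[i] x ∈ S ↔ x ∈ S :=
  Pool.Agent.Q158.Pair.inv_iter hS i x

/-- invariant sets -/
theorem inv_sets : ∃ C : ℝ, 0 < C ∧ ∀ S : Set ℤ, (∀ x, T x ∈ S ↔ x ∈ S) → ∀ (I A B : ℕ) (M : ℤ) (L : ℕ), 2 ≤ L →
    ({n : ℤ | M ≤ n ∧ n < M + L ∧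
      (∃ i j a c : ℕ, ∃ b d : ℤ, i ≤ I ∧ j ≤ I ∧ a ≤ A ∧ c ≤ A ∧ |b| ≤ B ∧ |d| ≤ B ∧
        2 ^ i * 3 ^ a * n + b ∈ S ∧ 2 ^ j * 3 ^ c * n + d ∉ S)}.ncard : ℝ) ≤
      C * ((1 + I + A + Real.log (1 + B)) / √(Real.log L)) * L := by
  classical
  obtain ⟨C, hC, h⟩ := prop_up
  refine ⟨4 * C, by positivity, fun S hS I A B M L hL => ?_⟩
  set t := Nat.log 2 L with ht
  have ht1 : 1 ≤ t := Nat.log_pos (by norm_num) hL
  have hLt : 2 ^ t ≤ L := Nat.pow_log_le_self 2 (by omega)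
  have h1 := h (A + I) (2 ^ I * (B + 1)) t ht1 M L hLt
  have hfin : ({n : ℤ | M ≤ n ∧ n < M + L ∧ 2 ≤ NV (A + I) (2 ^ I * (B + 1)) t n}).Finite :=
    (Set.finite_Ico M (M + L)).subset (fun n hn => ⟨hn.1, hn.2.1⟩)
  -- every form is equivalent to a member of the family
  have hform : ∀ (i a : ℕ) (b n : ℤ), i ≤ I → a ≤ A → |b| ≤ B → ∃ z ∈ fam (A + I) (2 ^ I * (B + 1)),
      (2 ^ i * 3 ^ a * n + b ∈ S ↔ 3 ^ z.1 * n + z.2 ∈ S) := by
    intro i a b n hi ha hb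
    refine ⟨(a + oc i b, T^[i] b), mem_fam.2 ⟨by have := oc_le i b; omega, ?_⟩, ?_⟩
    · have h2 := T_iter_abs i b
      have h3 : (2 : ℤ) ^ i ≤ 2 ^ I := pow_le_pow_right₀ (by norm_num) hi
      have h4 : (2 : ℤ) ^ i * (|b| + 1) ≤ 2 ^ I * (B + 1) :=
        mul_le_mul h3 (by linarith) (by positivity) (by positivity)
      have h5 : |T^[i] b| ≤ 2 ^ I * (B + 1) := by linarith
      have h6 := abs_le.1 h5
      push_cast
      exact h6
    · rw [← inv_iter hS i (2 ^ i * 3 ^ a * n + b)]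
      have e : 2 ^ i * 3 ^ a * n + b = b + 2 ^ i * (3 ^ a * n) := by ring
      rw [e, T_add]
      have e2 : T^[i] b + 3 ^ oc i b * (3 ^ a * n) = 3 ^ (a + oc i b) * n + T^[i] b := by
        rw [pow_add]
        ring
      rw [e2]
  have hsub : {n : ℤ | M ≤ n ∧ n < M + L ∧
      (∃ i j a c : ℕ, ∃ b d : ℤ, i ≤ I ∧ j ≤ I ∧ a ≤ A ∧ c ≤ A ∧ |b| ≤ B ∧ |d| ≤ B ∧
        2 ^ i * 3 ^ a * n + b ∈ S ∧ 2 ^ j * 3 ^ c * n + d ∉ S)} ⊆
      {n : ℤ | M ≤ n ∧ n < M + L ∧ 2 ≤ NV (A + I) (2 ^ I * (B + 1)) t n} := by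
    rintro n ⟨hn1, hn2, i, j, a, c, b, d, hi, hj, ha, hc, hb, hd, h2, h3⟩
    refine ⟨hn1, hn2, ?_⟩
    obtain ⟨z, hz, hz1⟩ := hform i a b n hi ha hb
    obtain ⟨z', hz', hz1'⟩ := hform j c d n hj hc hd
    apply NV_two hz hz'
    intro he
    rw [hz1, ← inv_iter hS t, he, inv_iter hS t, ← hz1'] at h2
    exact h3 h2
  have h2 : ({n : ℤ | M ≤ n ∧ n < M + L ∧
      (∃ i j a c : ℕ, ∃ b d : ℤ, i ≤ I ∧ j ≤ I ∧ a ≤ A ∧ c ≤ A ∧ |b| ≤ B ∧ |d| ≤ B ∧
        2 ^ i * 3 ^ a * n + b ∈ S ∧ 2 ^ j * 3 ^ c * n + d ∉ S)}.ncard : ℝ) ≤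
      ({n : ℤ | M ≤ n ∧ n < M + L ∧ 2 ≤ NV (A + I) (2 ^ I * (B + 1)) t n}.ncard : ℝ) := by
    exact_mod_cast Set.ncard_le_ncard hsub hfin
  refine (h2.trans h1).trans ?_
  apply mul_le_mul_of_nonneg_right _ (Nat.cast_nonneg L)
  have hA0 : (0 : ℝ) ≤ A := Nat.cast_nonneg A
  have hB0 : (0 : ℝ) ≤ B := Nat.cast_nonneg B
  have hI0 : (0 : ℝ) ≤ I := Nat.cast_nonneg I
  have hlB0 : 0 ≤ Real.log (1 + (B : ℝ)) := Real.log_nonneg (by linarith)
  have hlogL : 0 < Real.log L := Real.log_pos (by exact_mod_cast (by omega : 1 < L))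
  have hl2 := Real.log_two_gt_d9
  have hl2' := Real.log_two_lt_d9
  have ht0 : (0 : ℝ) < t := by exact_mod_cast ht1
  have h3 : Real.log L ≤ 4 * t := by
    have h4 : L ≤ 2 ^ (t + 1) := (Nat.lt_pow_succ_log_self (by norm_num) L).le
    have h5 : Real.log L ≤ Real.log (2 ^ (t + 1)) := by
      apply Real.log_le_log (by positivity)
      exact_mod_cast h4
    rw [Real.log_pow] at h5
    push_cast at h5
    have : (1 : ℝ) ≤ t := by exact_mod_cast ht1
    nlinarith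
  have h4 : √(Real.log L) ≤ 2 * √t := by
    apply Real.sqrt_le_iff.2
    refine ⟨by positivity, ?_⟩
    rw [mul_pow, Real.sq_sqrt ht0.le]
    linarith
  have h5 : 1 + ((A + I : ℕ) : ℝ) + Real.log (1 + ((2 ^ I * (B + 1) : ℕ) : ℝ)) ≤
      2 * (1 + I + A + Real.log (1 + B)) := by
    have h6 : Real.log (1 + ((2 ^ I * (B + 1) : ℕ) : ℝ)) ≤ Real.log (2 ^ (I + 1) * (1 + B)) := by
      apply Real.log_le_log (by positivity)
      push_cast
      have h7 : (1 : ℝ) ≤ 2 ^ I := one_le_pow₀ (by norm_num)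
      rw [pow_succ]
      nlinarith
    rw [Real.log_mul (by positivity) (by positivity), Real.log_pow] at h6
    push_cast at h6 ⊢
    nlinarith
  have hst : 0 < √(t : ℝ) := Real.sqrt_pos.2 ht0
  have hsL : 0 < √(Real.log L) := Real.sqrt_pos.2 hlogL
  calc C * ((1 + ((A + I : ℕ) : ℝ) + Real.log (1 + ((2 ^ I * (B + 1) : ℕ) : ℝ))) / √t)
      ≤ C * ((2 * (1 + I + A + Real.log (1 + B))) / (√(Real.log L) / 2)) := by
        apply mul_le_mul_of_nonneg_left _ hC.le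
        apply div_le_div₀ (by positivity) h5 (by positivity)
        linarith
    _ = 4 * C * ((1 + I + A + Real.log (1 + B)) / √(Real.log L)) := by
        field_simp
        ring

end Pool.Agent.Q74.BL
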