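import Pool.Agent.Q74.BL.LowM

/-! # Project BL: lower bound for the mean number of values, the two cases -/

set_option autoImplicit false

namespace Pool.Agent.Q74.BL

open Finset
open Pool.Agent.Q158.Pair (T T_even T_odd)
open Pool.Agent.Q74.AR (oc oc_le oc_per oc_even oc_odd)
open Pool.Agent.Q74.KP (EE Pe EE_mono EE_add EE_mul EE_const EE_sum EE_aff three_odd oc_add)

theorem oc_pow_even (s : ℕ) : ∀ N : ℤ, oc s (2 ^ s * N) = 0 := by
  induction s with
  | zero => intro N; simp [oc]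
  | succ s ih =>
    intro N
    rw [pow_succ, mul_comm ((2 : ℤ) ^ s) 2, mul_assoc, oc_even, ih]

theorem oc_pow_odd (s : ℕ) : ∀ N : ℤ, oc s (2 ^ s * N - 1) = s := by
  induction s with
  | zero => intro N; simp [oc]
  | succ s ih =>
    intro N
    have e1 : 2 ^ (s + 1) * N - 1 = 2 * (2 ^ s * N - 1) + 1 := by ring
    have e2 : 3 * (2 ^ s * N - 1) + 2 = 2 ^ s * (3 * N) - 1 := by ring
    rw [e1, oc_odd, e2, ih]
    omega

/-- every number of odd terms occurs -/
theorem exists_oc (s a : ℕ) (ha : a ≤ s) (x : ℤ) : ∃ h : ℕ, h < 2 ^ s ∧ oc s (x + h) = a := by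
  obtain ⟨m, rfl⟩ := Nat.exists_eq_add_of_le ha
  obtain ⟨w, κ, _, hw⟩ := Pool.Agent.Q74.AR.exists_inv (three_odd a) m
  -- y = 2 ^ a * w - 1 has a odd terms and then 3 ^ a * w - 1 = - 2 ^ m κ
  have hy : oc (a + m) (2 ^ a * w - 1) = a := by
    rw [oc_add, oc_pow_odd, T_pow_odd]
    have e : 3 ^ a * w - 1 = 2 ^ m * (-κ) := by linear_combination hw
    rw [e, oc_pow_even, add_zero]
  have h2 : (0 : ℤ) < 2 ^ (a + m) := by positivity
  refine ⟨((2 ^ a * w - 1 - x) % 2 ^ (a + m)).toNat, ?_, ?_⟩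
  · have h3 := Int.emod_lt_of_pos (2 ^ a * w - 1 - x) h2
    have h4 := Int.emod_nonneg (2 ^ a * w - 1 - x) h2.ne'
    have h5 : (((2 ^ a * w - 1 - x) % 2 ^ (a + m)).toNat : ℤ) < ((2 ^ (a + m) : ℕ) : ℤ) := by
      push_cast
      omega
    exact_mod_cast h5
  · have h4 := Int.emod_nonneg (2 ^ a * w - 1 - x) h2.ne'
    rw [Int.toNat_of_nonneg h4]
    have e1 := Int.mul_ediv_add_emod (2 ^ a * w - 1 - x) (2 ^ (a + m))
    have e : x + (2 ^ a * w - 1 - x) % 2 ^ (a + m) =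
        (2 ^ a * w - 1) + 2 ^ (a + m) * (-((2 ^ a * w - 1 - x) / 2 ^ (a + m))) := by linear_combination e1
    rw [e, oc_per, hy]

/-- large `A` -/
theorem mean_A (A B t D K : ℕ) (hD : t ≤ D ^ 2) (hD0 : 1 ≤ D) (hK : ∀ j, j < K → 2 * D * j ≤ A) (M : ℤ) (L : ℕ)
    (hL : 2 ^ t ≤ L) (hL2 : 4 * K * 2 ^ t ≤ L) : (K : ℝ) * L / 4 ≤ ∑ n ∈ Ico M (M + (L : ℤ)), (NV A B t n : ℝ) := by
  refine (many K t D hD hD0 (fun j => (2 * D * j, 0)) (fun j _ => rfl) M L hL hL2).trans ?_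
  apply sum_le_sum
  intro n _
  have h1 : (range K).image (fun j => T^[t] (3 ^ (2 * D * j) * n + 0)) ⊆
      (fam A B).image (fun z => T^[t] (3 ^ z.1 * n + z.2)) := by
    intro y hy
    obtain ⟨j, hj, rfl⟩ := mem_image.1 hy
    exact mem_image.2 ⟨(2 * D * j, 0), mem_fam.2 ⟨hK j (mem_range.1 hj), by omega, by omega⟩, rfl⟩
  have h2 := card_le_card h1
  unfold NV
  exact_mod_cast h2

/-- large `B` -/
theorem mean_B (A B s r D K : ℕ) (hD : r ≤ D ^ 2) (hD0 : 1 ≤ D) (hK : ∀ j, j < K → 2 * D * j ≤ s) (hs : 2 ^ s ≤ B)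
    (M : ℤ) (L : ℕ) (hL : 4 * (K + 1) * 2 ^ r * 2 ^ s + 2 ^ s ≤ L) :
    (K : ℝ) * L / 4 ≤ ∑ n ∈ Ico M (M + (L : ℤ)), (NV A B (s + r) n : ℝ) := by
  rw [sum_classes s]
  have e0 : (K : ℝ) * L / 4 = ∑ x ∈ range (2 ^ s), (K : ℝ) * (cn s x M L : ℝ) / 4 := by
    rw [← sum_div, ← mul_sum, sum_cn]
  rw [e0]
  apply sum_le_sum
  intro x hx
  have hx' : x < 2 ^ s := mem_range.1 hx
  have hL' : 4 * (K + 1) * 2 ^ r ≤ cn s x M L := by
    have h1 := cn_ge s x M L
    have h2 : (4 * (K + 1) * 2 ^ r * 2 ^ s + 2 ^ s : ℤ) ≤ L := by exact_mod_cast hL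
    have h3 : (2 ^ s : ℤ) * (4 * (K + 1) * 2 ^ r + 1) < 2 ^ s * (cn s x M L + 1) := by
      calc (2 ^ s : ℤ) * (4 * (K + 1) * 2 ^ r + 1) = 4 * (K + 1) * 2 ^ r * 2 ^ s + 2 ^ s := by ring
        _ ≤ L := h2
        _ < _ := h1
    have h4 : (4 * (K + 1) * 2 ^ r + 1 : ℤ) < cn s x M L + 1 := lt_of_mul_lt_mul_left h3 (by positivity)
    have h5 : 4 * (K + 1) * 2 ^ r + 1 < cn s x M L + 1 := by exact_mod_cast h4
    omega
  have hK2 : 4 * K * 2 ^ r ≤ cn s x M L := le_trans (Nat.mul_le_mul_right _ (by omega)) hL'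
  have hK3 : 2 ^ r ≤ cn s x M L := by
    refine le_trans ?_ hL'
    have : 1 * 2 ^ r ≤ 4 * (K + 1) * 2 ^ r := Nat.mul_le_mul_right _ (by omega)
    omega
  -- the distances
  have hex : ∀ j : ℕ, ∃ h : ℕ, h < 2 ^ s ∧ (j < K → oc s ((x : ℤ) + h) = 2 * D * j) := by
    intro j
    by_cases hj : j < K
    · obtain ⟨h, h1, h2⟩ := exists_oc s (2 * D * j) (hK j hj) x
      exact ⟨h, h1, fun _ => h2⟩
    · exact ⟨0, by positivity, fun h => absurd h hj⟩
  choose h hh1 hh2 using hex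
  refine (many K r D hD hD0 (fun j => nx s x (0, (h j : ℤ))) (fun j hj => ?_) (cl s x M) (cn s x M L) hK3 hK2).trans ?_
  · unfold nx
    simp only
    rw [pow_zero, one_mul, zero_add]
    exact hh2 j hj
  apply sum_le_sum
  intro N _
  have h1 : (range K).image (fun j => T^[r] (3 ^ (nx s x (0, (h j : ℤ))).1 * N + (nx s x (0, (h j : ℤ))).2)) ⊆
      (fam A B).image (fun z => T^[s + r] (3 ^ z.1 * (2 ^ s * N + x) + z.2)) := by
    intro y hy
    obtain ⟨j, hj, rfl⟩ := mem_image.1 hy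
    refine mem_image.2 ⟨(0, (h j : ℤ)), mem_fam.2 ⟨by omega, by omega, ?_⟩, ?_⟩
    · have := hh1 j
      exact_mod_cast (this.le.trans hs)
    · simp only
      rw [← nx_val s r x N (0, (h j : ℤ))]
  have h2 := card_le_card h1
  unfold NV
  exact_mod_cast h2

/-- JOB LowM -/
theorem lowM : S_LowM := by
  refine ⟨1 / 50, 4, by norm_num, by norm_num, fun A B t ht htB hR M L hL => ?_⟩
  have ht0 : (0 : ℝ) < t := by exact_mod_cast ht
  have ht1 : (1 : ℝ) ≤ t := by exact_mod_cast ht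
  have hst : 0 < √(t : ℝ) := Real.sqrt_pos.2 ht0
  have hst1 : 1 ≤ √(t : ℝ) := by rw [Real.one_le_sqrt]; exact ht1
  have hL0 : (0 : ℝ) ≤ L := Nat.cast_nonneg L
  have hA0 : (0 : ℝ) ≤ A := Nat.cast_nonneg A
  have hB0 : (0 : ℝ) ≤ B := Nat.cast_nonneg B
  set lB := Real.log (1 + (B : ℝ)) with hlB
  have hlB0 : 0 ≤ lB := Real.log_nonneg (by linarith)
  set R := 1 + (A : ℝ) + lB with hRd
  set D := Nat.sqrt t + 1 with hD
  have hDt : t ≤ D ^ 2 := by
    have := Nat.lt_succ_sqrt t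
    rw [hD, pow_two]
    exact this.le
  have hDs : (D : ℝ) ≤ 2 * √t := by
    have h1 : ((Nat.sqrt t : ℕ) : ℝ) ≤ √t := by
      apply Real.le_sqrt_of_sq_le
      have := Nat.sqrt_le' t
      exact_mod_cast this
    rw [hD]
    push_cast
    linarith
  have hD0 : 1 ≤ D := by omega
  have hDr : (0 : ℝ) < D := by exact_mod_cast hD0
  have hKgen : ∀ m : ℕ, ∀ j, j < m / (2 * D) + 1 → 2 * D * j ≤ m := by
    intro m j hj
    have h1 : j ≤ m / (2 * D) := by omega
    calc 2 * D * j ≤ 2 * D * (m / (2 * D)) := Nat.mul_le_mul_left _ h1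
      _ ≤ m := Nat.mul_div_le m (2 * D)
  have hKlow : ∀ m : ℕ, ((m : ℝ) + 1) / (4 * √t) ≤ ((m / (2 * D) + 1 : ℕ) : ℝ) := by
    intro m
    rw [div_le_iff₀ (by positivity)]
    have h1 : m + 1 ≤ (m / (2 * D) + 1) * (2 * D) := by
      have h2 := Nat.div_add_mod m (2 * D)
      have h3 := Nat.mod_lt m (show 0 < 2 * D by omega)
      nlinarith
    have h2 : (m : ℝ) + 1 ≤ ((m / (2 * D) + 1 : ℕ) : ℝ) * (2 * D) := by exact_mod_cast h1
    have h3 : ((m / (2 * D) + 1 : ℕ) : ℝ) * (2 * D) ≤ ((m / (2 * D) + 1 : ℕ) : ℝ) * (4 * √t) :=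
      mul_le_mul_of_nonneg_left (by linarith) (Nat.cast_nonneg _)
    linarith
  have hKup : ∀ m : ℕ, m / (2 * D) ≤ m := fun m => Nat.div_le_self _ _
  have hR4 : 4 ≤ R := by nlinarith
  rcases le_total (R / 3) ((A : ℝ) + 1) with hc | hc
  · -- large A
    set K := A / (2 * D) + 1 with hK
    have hL1 : 2 ^ t ≤ L := by
      have : 1 * 2 ^ t ≤ 64 * (t + A) * 2 ^ t := Nat.mul_le_mul_right _ (by omega)
      omega
    have hL2 : 4 * K * 2 ^ t ≤ L := by
      have h1 := hKup A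
      have : 4 * K * 2 ^ t ≤ 64 * (t + A) * 2 ^ t := Nat.mul_le_mul_right _ (by omega)
      omega
    refine le_trans ?_ (mean_A A B t D K hDt hD0 (hKgen A) M L hL1 hL2)
    have h1 := hKlow A
    have h2 : R / (12 * √t) ≤ K := by
      refine le_trans ?_ h1
      rw [div_le_div_iff₀ (by positivity) (by positivity)]
      nlinarith
    have h3 : 1 / 50 * (R / √t) ≤ K / 4 := by
      have e : R / (12 * √(t : ℝ)) = (R / √t) / 12 := by
        rw [div_div, mul_comm]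
      rw [e] at h2
      have : 0 ≤ R / √(t : ℝ) := by positivity
      linarith
    calc _ ≤ (K : ℝ) / 4 * L := mul_le_mul_of_nonneg_right h3 hL0
      _ = _ := by ring
  · -- large B
    have hlBR : R / 3 ≤ lB := by linarith
    have hB1 : 1 ≤ B := by
      by_contra hB
      have : B = 0 := by omega
      rw [this] at hlB
      norm_num at hlB
      rw [hlB] at hlBR
      linarith
    set s := Nat.log 2 B with hs
    have hs2 : 2 ^ s ≤ B := Nat.pow_log_le_self 2 (by omega)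
    have hs3 : 1 + B ≤ 2 ^ (s + 1) := by
      have := Nat.lt_pow_succ_log_self (by norm_num : 1 < 2) B
      rw [← hs] at this
      have h2 : B < 2 ^ (s + 1) := this
      omega
    have hl2 := Real.log_two_gt_d9
    have hl2' := Real.log_two_lt_d9
    have hs4 : lB ≤ s + 1 := by
      have h9 : lB ≤ Real.log (2 ^ (s + 1)) := by
        apply Real.log_le_log (by positivity)
        exact_mod_cast hs3
      rw [Real.log_pow] at h9
      push_cast at h9
      nlinarith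
    have hs5 : (s : ℝ) ≤ t / 2 := by
      have h9 : Real.log ((2 : ℝ) ^ s) ≤ Real.log (2 + B) := by
        apply Real.log_le_log (by positivity)
        have : (2 : ℝ) ^ s ≤ B := by exact_mod_cast hs2
        linarith
      rw [Real.log_pow] at h9
      nlinarith
    have hst' : s ≤ t := by
      have : (s : ℝ) ≤ t := by linarith
      exact_mod_cast this
    obtain ⟨r, hr⟩ := Nat.exists_eq_add_of_le hst'
    have hrt : r ≤ t := by omega
    set K := s / (2 * D) + 1 with hK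
    have hK1 : K ≤ t + 1 := by
      have h1 := hKup s
      omega
    have hLL : 4 * (K + 1) * 2 ^ r * 2 ^ s + 2 ^ s ≤ L := by
      have h1 : 4 * (K + 1) * 2 ^ r * 2 ^ s + 2 ^ s ≤ (4 * (K + 1) + 1) * 2 ^ t := by
        have e : 2 ^ r * 2 ^ s = 2 ^ t := by rw [← pow_add, hr, add_comm]
        have h2 : 2 ^ s ≤ 2 ^ t := Nat.pow_le_pow_right (by norm_num) hst'
        calc 4 * (K + 1) * 2 ^ r * 2 ^ s + 2 ^ s = 4 * (K + 1) * (2 ^ r * 2 ^ s) + 2 ^ s := by ring
          _ = 4 * (K + 1) * 2 ^ t + 2 ^ s := by rw [e]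
          _ ≤ 4 * (K + 1) * 2 ^ t + 2 ^ t := Nat.add_le_add_left h2 _
          _ = _ := by ring
      refine h1.trans (le_trans ?_ hL)
      apply Nat.mul_le_mul_right
      omega
    have h1 := mean_B A B s r D K (hrt.trans hDt) hD0 (hKgen s) hs2 M L hLL
    rw [← hr] at h1
    refine le_trans ?_ h1
    have h1 := hKlow s
    have h2 : R / (12 * √t) ≤ K := by
      refine le_trans ?_ h1
      rw [div_le_div_iff₀ (by positivity) (by positivity)]
      nlinarith
    have h3 : 1 / 50 * (R / √t) ≤ K / 4 := by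
      have e : R / (12 * √(t : ℝ)) = (R / √t) / 12 := by
        rw [div_div, mul_comm]
      rw [e] at h2
      have : 0 ≤ R / √(t : ℝ) := by positivity
      linarith
    calc _ ≤ (K : ℝ) / 4 * L := mul_le_mul_of_nonneg_right h3 hL0
      _ = _ := by ring

end Pool.Agent.Q74.BL
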