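import Pool.Agent.Q74.BL.LowP

/-! # Project BL: lower bound for the mean number of values -/

set_option autoImplicit false

namespace Pool.Agent.Q74.BL

open Finset
open Pool.Agent.Q158.Pair (T T_even T_odd)
open Pool.Agent.Q74.AR (oc oc_le oc_per oc_even bE bE_sq bE_mono bE_mul sum_oc)
open Pool.Agent.Q74.KP (EE Pe EE_mono EE_add EE_mul EE_const EE_sum EE_aff three_odd oc_add)

/-- the number of values is at least the number of indices minus the number of ordered pairs with equal values -/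
theorem card_pairs (G : Finset ℕ) (v : ℕ → ℤ) :
    (G.card : ℝ) - ∑ i ∈ G, ∑ j ∈ G, (if i ≠ j ∧ v i = v j then (1 : ℝ) else 0) ≤ (G.image v).card := by
  classical
  have h1 : ∑ i ∈ G, (2 - ((G.filter (fun j => v j = v i)).card : ℝ)) =
      ∑ y ∈ G.image v, ((G.filter (fun j => v j = y)).card : ℝ) * (2 - ((G.filter (fun j => v j = y)).card : ℝ)) := by
    have := Finset.sum_comp (s := G) (fun y => 2 - ((G.filter (fun j => v j = y)).card : ℝ)) v
    simp only [nsmul_eq_mul] at this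
    exact this
  have h2 : ∑ y ∈ G.image v, ((G.filter (fun j => v j = y)).card : ℝ) * (2 - ((G.filter (fun j => v j = y)).card : ℝ)) ≤
      (G.image v).card := by
    rw [card_eq_sum_ones]
    push_cast
    apply sum_le_sum
    intro y _
    nlinarith [sq_nonneg (((G.filter (fun j => v j = y)).card : ℝ) - 1)]
  refine le_trans (le_of_eq ?_) (h1.le.trans h2)
  rw [card_eq_sum_ones]
  push_cast
  rw [← sum_sub_distrib]
  apply sum_congr rfl
  intro i hi
  have h3 : ((G.filter (fun j => v j = v i)).card : ℝ) = 1 + ∑ j ∈ G, (if i ≠ j ∧ v i = v j then (1 : ℝ) else 0) := by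
    rw [card_filter]
    push_cast
    have h4 : (1 : ℝ) = ∑ j ∈ G, (if j = i then (1 : ℝ) else 0) := by
      rw [sum_ite_eq' G i, if_pos hi]
    nth_rw 2 [h4]
    rw [← sum_add_distrib]
    apply sum_congr rfl
    intro j _
    by_cases hji : j = i
    · subst hji
      simp
    · have hij : i ≠ j := fun h => hji h.symm
      by_cases hv : v i = v j
      · rw [if_pos hv.symm, if_neg hji, if_pos ⟨hij, hv⟩, zero_add]
      · rw [if_neg (fun h => hv h.symm), if_neg hji, if_neg (fun h => hv h.2), zero_add]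
  rw [h3]
  ring

theorem EE_oc (r : ℕ) (g : ℕ → ℝ) (a : ℕ) (b : ℤ) : EE r (fun N => g (oc r (3 ^ a * N + b))) = bE r g := by
  have hp : Pe r (fun N => g (oc r N)) := by
    intro x j
    simp only [oc_per]
  rw [EE_aff hp (3 ^ a) (three_odd a) b]
  unfold EE
  rw [sum_oc]
  field_simp

/-- Chebyshev -/
theorem far_count (r D : ℕ) (hD : r ≤ D ^ 2) (hD0 : 1 ≤ D) (a : ℕ) (b : ℤ) (M : ℤ) (L : ℕ) (hL : 2 ^ r ≤ L) :
    ∑ N ∈ Ico M (M + (L : ℤ)), (if (D : ℝ) ≤ |(oc r (3 ^ a * N + b) : ℝ) - r / 2| then (1 : ℝ) else 0) ≤ L / 2 := by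
  have hp : Pe r (fun N => (if (D : ℝ) ≤ |(oc r (3 ^ a * N + b) : ℝ) - r / 2| then (1 : ℝ) else 0)) := by
    intro x j
    have e : 3 ^ a * (x + 2 ^ r * j) + b = (3 ^ a * x + b) + 2 ^ r * (3 ^ a * j) := by ring
    simp only [e, oc_per]
  have h1 := sum_per_le hp (fun N => by split_ifs <;> norm_num) M L hL
  refine h1.trans ?_
  have hDr : (0 : ℝ) < D := by exact_mod_cast hD0
  have h2 : EE r (fun N => (if (D : ℝ) ≤ |(oc r (3 ^ a * N + b) : ℝ) - r / 2| then (1 : ℝ) else 0)) ≤ 1 / 4 := by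
    rw [EE_oc r (fun k => if (D : ℝ) ≤ |(k : ℝ) - r / 2| then (1 : ℝ) else 0)]
    have h3 : bE r (fun k => if (D : ℝ) ≤ |(k : ℝ) - r / 2| then (1 : ℝ) else 0) ≤
        bE r (fun k => (1 / (D : ℝ) ^ 2) * ((k : ℝ) - r / 2) ^ 2) := by
      apply bE_mono
      intro k
      split_ifs with h
      · rw [div_mul_eq_mul_div, one_mul, le_div_iff₀ (by positivity), one_mul, ← sq_abs ((k : ℝ) - r / 2)]
        exact pow_le_pow_left₀ hDr.le h 2
      · positivity
    refine h3.trans ?_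
    rw [bE_mul, bE_sq, sub_self]
    have h4 : (r : ℝ) ≤ (D : ℝ) ^ 2 := by exact_mod_cast hD
    rw [div_mul_eq_mul_div, one_mul, div_le_iff₀ (by positivity)]
    linarith
  have hL0 : (0 : ℝ) ≤ L := Nat.cast_nonneg L
  nlinarith

/-- accidental equalities: different levels, same value -/
theorem acc_count (r : ℕ) (z z' : ℕ × ℤ) (M : ℤ) (L : ℕ) :
    ∑ N ∈ Ico M (M + (L : ℤ)), (if z.1 + oc r (3 ^ z.1 * N + z.2) ≠ z'.1 + oc r (3 ^ z'.1 * N + z'.2) ∧
      T^[r] (3 ^ z.1 * N + z.2) = T^[r] (3 ^ z'.1 * N + z'.2) then (1 : ℝ) else 0) ≤ 2 ^ r := by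
  classical
  set P : ℤ → Prop := fun N => z.1 + oc r (3 ^ z.1 * N + z.2) ≠ z'.1 + oc r (3 ^ z'.1 * N + z'.2) ∧
      T^[r] (3 ^ z.1 * N + z.2) = T^[r] (3 ^ z'.1 * N + z'.2) with hP
  have h1 : ∑ N ∈ Ico M (M + (L : ℤ)), (if P N then (1 : ℝ) else 0) = (((Ico M (M + (L : ℤ))).filter P).card : ℝ) := by
    rw [card_filter]
    push_cast
    rfl
  rw [h1]
  have h2 : ((Ico M (M + (L : ℤ))).filter P).card ≤ (range (2 ^ r)).card := by
    apply card_le_card_of_injOn (fun N => (N % 2 ^ r).toNat)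
    · intro N _
      have h2 : (0 : ℤ) < 2 ^ r := by positivity
      rw [mem_coe, mem_range]
      have h3 := Int.emod_lt_of_pos N h2
      have h4 := Int.emod_nonneg N h2.ne'
      have h5 : ((N % 2 ^ r).toNat : ℤ) < ((2 ^ r : ℕ) : ℤ) := by
        push_cast
        omega
      exact_mod_cast h5
    · intro N hN N' hN' he
      have h2 : (0 : ℤ) < 2 ^ r := by positivity
      simp only at he
      have h3 := Int.emod_nonneg N h2.ne'
      have h4 := Int.emod_nonneg N' h2.ne'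
      have h5 : N % 2 ^ r = N' % 2 ^ r := by omega
      obtain ⟨j, hj⟩ : ∃ j, N' = N + 2 ^ r * j := by
        refine ⟨N' / 2 ^ r - N / 2 ^ r, ?_⟩
        have e1 := Int.mul_ediv_add_emod N (2 ^ r)
        have e2 := Int.mul_ediv_add_emod N' (2 ^ r)
        rw [h5] at e1
        linear_combination e1 - e2
      have hPN : P N := (mem_filter.1 hN).2
      have hPN' : P N' := (mem_filter.1 hN').2
      have key : ∀ y : ℕ × ℤ, T^[r] (3 ^ y.1 * (N + 2 ^ r * j) + y.2) =
          T^[r] (3 ^ y.1 * N + y.2) + 3 ^ (y.1 + oc r (3 ^ y.1 * N + y.2)) * j := by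
        intro y
        have e : 3 ^ y.1 * (N + 2 ^ r * j) + y.2 = (3 ^ y.1 * N + y.2) + 2 ^ r * (3 ^ y.1 * j) := by ring
        rw [e, T_add, pow_add]
        ring
      have h6 := hPN'.2
      rw [hj, key, key, hPN.2] at h6
      have h7 : ((3 : ℤ) ^ (z.1 + oc r (3 ^ z.1 * N + z.2)) - 3 ^ (z'.1 + oc r (3 ^ z'.1 * N + z'.2))) * j = 0 := by
        linear_combination h6
      rcases mul_eq_zero.1 h7 with h8 | h8
      · exfalso
        apply hPN.1
        have h9 : (3 : ℤ) ^ (z.1 + oc r (3 ^ z.1 * N + z.2)) = 3 ^ (z'.1 + oc r (3 ^ z'.1 * N + z'.2)) := by omega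
        exact Int.pow_right_injective (by norm_num) h9
      · rw [hj, h8, mul_zero, add_zero]
  rw [card_range] at h2
  exact_mod_cast h2

/-- many values for forms whose levels are far apart -/
theorem many (K r D : ℕ) (hD : r ≤ D ^ 2) (hD0 : 1 ≤ D) (z : ℕ → ℕ × ℤ) (hz : ∀ j, j < K → (z j).1 = 2 * D * j) (M : ℤ)
    (L : ℕ) (hL : 2 ^ r ≤ L) (hL2 : 4 * K * 2 ^ r ≤ L) :
    (K : ℝ) * L / 4 ≤ ∑ N ∈ Ico M (M + (L : ℤ)),
      (((range K).image (fun j => T^[r] (3 ^ (z j).1 * N + (z j).2))).card : ℝ) := by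
  classical
  set G : ℤ → Finset ℕ := fun N => (range K).filter (fun j => ¬ (D : ℝ) ≤ |(oc r (3 ^ (z j).1 * N + (z j).2) : ℝ) - r / 2|) with hG
  have h1 : ∀ N : ℤ, ((G N).card : ℝ) - ∑ i ∈ range K, ∑ j ∈ range K,
      (if (z i).1 + oc r (3 ^ (z i).1 * N + (z i).2) ≠ (z j).1 + oc r (3 ^ (z j).1 * N + (z j).2) ∧
        T^[r] (3 ^ (z i).1 * N + (z i).2) = T^[r] (3 ^ (z j).1 * N + (z j).2) then (1 : ℝ) else 0) ≤
      (((range K).image (fun j => T^[r] (3 ^ (z j).1 * N + (z j).2))).card : ℝ) := by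
    intro N
    have h2 := card_pairs (G N) (fun j => T^[r] (3 ^ (z j).1 * N + (z j).2))
    have h3 : (((G N).image (fun j => T^[r] (3 ^ (z j).1 * N + (z j).2))).card : ℝ) ≤
        ((range K).image (fun j => T^[r] (3 ^ (z j).1 * N + (z j).2))).card := by
      exact_mod_cast card_le_card (image_subset_image (filter_subset _ _))
    have h4 : ∑ i ∈ G N, ∑ j ∈ G N, (if i ≠ j ∧ T^[r] (3 ^ (z i).1 * N + (z i).2) = T^[r] (3 ^ (z j).1 * N + (z j).2)
        then (1 : ℝ) else 0) ≤ ∑ i ∈ range K, ∑ j ∈ range K,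
      (if (z i).1 + oc r (3 ^ (z i).1 * N + (z i).2) ≠ (z j).1 + oc r (3 ^ (z j).1 * N + (z j).2) ∧
        T^[r] (3 ^ (z i).1 * N + (z i).2) = T^[r] (3 ^ (z j).1 * N + (z j).2) then (1 : ℝ) else 0) := by
      have h5 : ∀ i ∈ G N, ∀ j ∈ G N, (if i ≠ j ∧ T^[r] (3 ^ (z i).1 * N + (z i).2) = T^[r] (3 ^ (z j).1 * N + (z j).2)
          then (1 : ℝ) else 0) ≤
          (if (z i).1 + oc r (3 ^ (z i).1 * N + (z i).2) ≠ (z j).1 + oc r (3 ^ (z j).1 * N + (z j).2) ∧
            T^[r] (3 ^ (z i).1 * N + (z i).2) = T^[r] (3 ^ (z j).1 * N + (z j).2) then (1 : ℝ) else 0) := by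
        intro i hi j hj
        by_cases h : i ≠ j ∧ T^[r] (3 ^ (z i).1 * N + (z i).2) = T^[r] (3 ^ (z j).1 * N + (z j).2)
        · rw [if_pos h, if_pos]
          refine ⟨fun he => ?_, h.2⟩
          rw [hG, mem_filter, mem_range] at hi hj
          obtain ⟨hiK, hi2⟩ := hi
          obtain ⟨hjK, hj2⟩ := hj
          rw [not_le, abs_lt] at hi2 hj2
          have he' : ((z i).1 : ℝ) + oc r (3 ^ (z i).1 * N + (z i).2) = (z j).1 + oc r (3 ^ (z j).1 * N + (z j).2) := by
            exact_mod_cast he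
          have h6 : |((z i).1 : ℝ) - (z j).1| < 2 * D := by
            rw [abs_lt]
            constructor <;> linarith [hi2.1, hi2.2, hj2.1, hj2.2]
          rw [hz i hiK, hz j hjK] at h6
          have h7 : |((i : ℤ) : ℝ) - ((j : ℤ) : ℝ)| < 1 := by
            have e : (((2 * D * i : ℕ) : ℝ) - ((2 * D * j : ℕ) : ℝ)) = (2 * D) * (((i : ℤ) : ℝ) - ((j : ℤ) : ℝ)) := by
              push_cast
              ring
            have hD2 : (0 : ℝ) < 2 * D := by
              have : (0 : ℝ) < D := by exact_mod_cast hD0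
              linarith
            rw [e, abs_mul, abs_of_pos hD2] at h6
            have : (2 * (D : ℝ)) * |((i : ℤ) : ℝ) - ((j : ℤ) : ℝ)| < (2 * D) * 1 := by linarith
            exact lt_of_mul_lt_mul_left this hD2.le
          have h8 : |(i : ℤ) - (j : ℤ)| < 1 := by exact_mod_cast h7
          have h9 : (i : ℤ) = j := by
            have := abs_lt.1 h8
            omega
          exact h.1 (by exact_mod_cast h9)
        · rw [if_neg h]
          split_ifs <;> norm_num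
      calc _ ≤ ∑ i ∈ G N, ∑ j ∈ G N, _ := sum_le_sum fun i hi => sum_le_sum fun j hj => h5 i hi j hj
        _ ≤ ∑ i ∈ G N, ∑ j ∈ range K, _ := sum_le_sum fun i _ =>
            sum_le_sum_of_subset_of_nonneg (filter_subset _ _) fun j _ _ => by split_ifs <;> norm_num
        _ ≤ _ := sum_le_sum_of_subset_of_nonneg (filter_subset _ _) fun i _ _ =>
            sum_nonneg fun j _ => by split_ifs <;> norm_num
    linarith
  refine le_trans ?_ (sum_le_sum fun N _ => h1 N)
  rw [sum_sub_distrib]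
  -- the accidents
  have h2 : ∑ N ∈ Ico M (M + (L : ℤ)), ∑ i ∈ range K, ∑ j ∈ range K,
      (if (z i).1 + oc r (3 ^ (z i).1 * N + (z i).2) ≠ (z j).1 + oc r (3 ^ (z j).1 * N + (z j).2) ∧
        T^[r] (3 ^ (z i).1 * N + (z i).2) = T^[r] (3 ^ (z j).1 * N + (z j).2) then (1 : ℝ) else 0) ≤ K * L / 4 := by
    rw [sum_comm]
    have h3 : ∀ i ∈ range K, ∑ N ∈ Ico M (M + (L : ℤ)), ∑ j ∈ range K,
      (if (z i).1 + oc r (3 ^ (z i).1 * N + (z i).2) ≠ (z j).1 + oc r (3 ^ (z j).1 * N + (z j).2) ∧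
        T^[r] (3 ^ (z i).1 * N + (z i).2) = T^[r] (3 ^ (z j).1 * N + (z j).2) then (1 : ℝ) else 0) ≤ K * 2 ^ r := by
      intro i _
      rw [sum_comm]
      refine (sum_le_card_nsmul _ _ _ fun j _ => acc_count r (z i) (z j) M L).trans (le_of_eq ?_)
      rw [card_range, nsmul_eq_mul]
    refine (sum_le_card_nsmul _ _ _ h3).trans ?_
    rw [card_range, nsmul_eq_mul]
    have h4 : (4 * (K : ℝ) * 2 ^ r) ≤ L := by exact_mod_cast hL2
    have hK0 : (0 : ℝ) ≤ K := Nat.cast_nonneg K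
    nlinarith
  -- the good ones
  have h3 : (K : ℝ) * L / 2 ≤ ∑ N ∈ Ico M (M + (L : ℤ)), ((G N).card : ℝ) := by
    have e1 : ∀ N, ((G N).card : ℝ) = K - ∑ j ∈ range K,
        (if (D : ℝ) ≤ |(oc r (3 ^ (z j).1 * N + (z j).2) : ℝ) - r / 2| then (1 : ℝ) else 0) := by
      intro N
      have h4 : (K : ℝ) = ∑ j ∈ range K, (1 : ℝ) := by simp
      rw [hG]
      simp only
      rw [card_filter]
      push_cast
      nth_rw 1 [h4]
      rw [← sum_sub_distrib]
      apply sum_congr rfl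
      intro j _
      split_ifs <;> norm_num
    simp only [e1]
    rw [sum_sub_distrib, sum_const, Int.card_Ico, nsmul_eq_mul, sum_comm]
    have e2 : (M + (L : ℤ) - M).toNat = L := by omega
    rw [e2]
    have h5 : ∑ j ∈ range K, ∑ N ∈ Ico M (M + (L : ℤ)),
        (if (D : ℝ) ≤ |(oc r (3 ^ (z j).1 * N + (z j).2) : ℝ) - r / 2| then (1 : ℝ) else 0) ≤ K * (L / 2) := by
      refine (sum_le_card_nsmul _ _ _ fun j _ => far_count r D hD hD0 (z j).1 (z j).2 M L hL).trans (le_of_eq ?_)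
      rw [card_range, nsmul_eq_mul]
    linarith
  linarith

end Pool.Agent.Q74.BL
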