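import Pool.Agent.Q74.BL.Def
import Pool.Agent.Q74.AR.Td

/-! # Project BL: the forms after `s` steps, and the potential `√(1 + |w|)` -/

set_option autoImplicit false

namespace Pool.Agent.Q74.BL

open Finset
open Pool.Agent.Q158.Pair (T T_even T_odd sum_two)
open Pool.Agent.Q74.AR (oc oc_even oc_odd oc_per)
open Pool.Agent.Q74.KP (EE Pe EE_mono EE_add EE_mul EE_const oc_add)

theorem T_add (t : ℕ) (x j : ℤ) : T^[t] (x + 2 ^ t * j) = T^[t] x + 3 ^ oc t x * j := by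
  have h1 : ∀ (x : ℤ), (Pool.Agent.Q74.AR.Td 1)^[t] x = T^[t] x := by
    intro x
    have := Pool.Agent.Q74.AR.Td_iter (d := 1) (by norm_num) t x 0
    simpa using this
  have h2 := Pool.Agent.Q74.AR.Td_iter (d := 1) (by norm_num) t x j
  rw [one_mul, one_mul, h1] at h2
  exact h2

/-- the form `z` after `s` steps, if the base is `2 ^ s * N + x` -/
def nx (s : ℕ) (x : ℤ) (z : ℕ × ℤ) : ℕ × ℤ := (z.1 + oc s (3 ^ z.1 * x + z.2), T^[s] (3 ^ z.1 * x + z.2))

theorem nx_zero (z : ℕ × ℤ) : nx 0 0 z = z := by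
  unfold nx
  rw [mul_zero, zero_add]
  simp [oc]

theorem nx_add (s r : ℕ) (x x' : ℤ) (z : ℕ × ℤ) : nx (s + r) (2 ^ s * x' + x) z = nx r x' (nx s x z) := by
  have e : 3 ^ z.1 * (2 ^ s * x' + x) + z.2 = (3 ^ z.1 * x + z.2) + 2 ^ s * (3 ^ z.1 * x') := by ring
  unfold nx
  simp only
  rw [e, oc_add, T_add, oc_per, Nat.add_comm s r, Function.iterate_add_apply, T_add, pow_add]
  rw [Prod.mk.injEq]
  have e2 : T^[s] (3 ^ z.1 * x + z.2) + 3 ^ oc s (3 ^ z.1 * x + z.2) * (3 ^ z.1 * x') =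
      3 ^ z.1 * 3 ^ oc s (3 ^ z.1 * x + z.2) * x' + T^[s] (3 ^ z.1 * x + z.2) := by ring
  rw [e2]
  exact ⟨by ring, rfl⟩

theorem nx_val (s r : ℕ) (x N : ℤ) (z : ℕ × ℤ) :
    T^[s + r] (3 ^ z.1 * (2 ^ s * N + x) + z.2) = T^[r] (3 ^ (nx s x z).1 * N + (nx s x z).2) := by
  have e : 3 ^ z.1 * (2 ^ s * N + x) + z.2 = (3 ^ z.1 * x + z.2) + 2 ^ s * (3 ^ z.1 * N) := by ring
  rw [e, Nat.add_comm s r, Function.iterate_add_apply, T_add]
  unfold nx
  simp only
  rw [pow_add]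
  congr 1
  ring_nf

theorem sum_mul_range (a b : ℕ) (f : ℕ → ℝ) : ∑ i ∈ range (a * b), f i = ∑ i ∈ range a, ∑ j ∈ range b, f (a * j + i) := by
  rw [sum_comm]
  induction b with
  | zero => simp
  | succ b ih => rw [Nat.mul_succ, sum_range_add, ih, sum_range_succ]

theorem EE_split (s r : ℕ) (F : ℤ → ℝ) :
    EE (s + r) F = EE s (fun x => EE r (fun x' => F (2 ^ s * x' + x))) := by
  unfold EE
  rw [← sum_div, div_div, pow_add (2 : ℝ), mul_comm ((2 : ℝ) ^ r), pow_add (2 : ℕ), sum_mul_range]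
  congr 1

/-- the deviation of a form from the main line -/
noncomputable def ww (θ : ℝ) (z : ℕ × ℤ) : ℝ := z.2 - 3 ^ z.1 * θ

/-- the averaging operator of the deviation -/
noncomputable def Au (f : ℝ → ℝ) : ℕ → ℝ → ℝ
  | 0 => f
  | u + 1 => fun w => (Au f u (w / 2) + Au f u ((3 * w + 1) / 2)) / 2

theorem ww_one (θ : ℝ) (x : ℤ) (z : ℕ × ℤ) : ww ((θ + x) / 2) (nx 1 x z) =
    if (3 ^ z.1 * x + z.2) % 2 = 0 then ww θ z / 2 else (3 * ww θ z + 1) / 2 := by
  obtain ⟨m, hm | hm⟩ := Int.even_or_odd' (3 ^ z.1 * x + z.2)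
  · have h1 : (3 ^ z.1 * x + z.2) % 2 = 0 := by omega
    rw [if_pos h1]
    unfold ww nx
    simp only
    rw [hm, Function.iterate_one, T_even]
    have h2 : oc 1 (2 * m) = 0 := by
      have := oc_even 0 m
      rw [Nat.zero_add] at this
      rw [this]
      rfl
    rw [h2, add_zero]
    have h3 : (3 : ℝ) ^ z.1 * x + z.2 = 2 * m := by exact_mod_cast hm
    linear_combination (1 / 2 : ℝ) * h3.symm
  · have h1 : ¬ (3 ^ z.1 * x + z.2) % 2 = 0 := by omega
    rw [if_neg h1]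
    unfold ww nx
    simp only
    rw [hm, Function.iterate_one, T_odd]
    have h2 : oc 1 (2 * m + 1) = 1 := by
      have := oc_odd 0 m
      rw [Nat.zero_add] at this
      rw [this]
      rfl
    rw [h2, pow_add]
    have h3 : (3 : ℝ) ^ z.1 * x + z.2 = 2 * m + 1 := by exact_mod_cast hm
    push_cast
    linear_combination (3 / 2 : ℝ) * h3.symm

theorem three_par (c : ℕ) (b : ℤ) : (3 ^ c * 1 + b) % 2 = 0 ↔ ¬ (3 ^ c * 0 + b) % 2 = 0 := by
  have h := Pool.Agent.Q74.KP.three_odd c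
  omega

theorem EE_one (F : ℤ → ℝ) : EE 1 F = (F 0 + F 1) / 2 := by
  unfold EE
  rw [pow_one, sum_range_succ, sum_range_one, pow_one]
  push_cast
  rfl

theorem Au_avg (f : ℝ → ℝ) (u : ℕ) : ∀ (θ : ℝ) (z : ℕ × ℤ),
    EE u (fun x => f (ww ((θ + x) / 2 ^ u) (nx u x z))) = Au f u (ww θ z) := by
  induction u with
  | zero =>
    intro θ z
    unfold EE
    rw [pow_zero, sum_range_one, pow_zero, div_one, Nat.cast_zero]
    show f (ww ((θ + ((0 : ℤ) : ℝ)) / 1) (nx 0 0 z)) = f (ww θ z)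
    rw [Int.cast_zero, add_zero, div_one, nx_zero]
  | succ u ih =>
    intro θ z
    rw [Nat.add_comm u 1, EE_split, EE_one]
    have e1 : ∀ x : ℤ, EE u (fun x' => f (ww ((θ + ((2 ^ 1 * x' + x : ℤ) : ℝ)) / 2 ^ (1 + u)) (nx (1 + u) (2 ^ 1 * x' + x) z))) =
        Au f u (ww ((θ + x) / 2) (nx 1 x z)) := by
      intro x
      rw [← ih]
      congr 1
      funext x'
      rw [nx_add]
      congr 2
      rw [pow_add]
      push_cast
      field_simp
      ring
    rw [e1, e1, ww_one, ww_one]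
    rw [Nat.add_comm 1 u]
    show _ = (Au f u (ww θ z / 2) + Au f u ((3 * ww θ z + 1) / 2)) / 2
    by_cases h : (3 ^ z.1 * 0 + z.2) % 2 = 0
    · have h1 : ¬ (3 ^ z.1 * 1 + z.2) % 2 = 0 := by
        rw [three_par]
        exact not_not.2 h
      rw [if_pos h, if_neg h1]
    · rw [if_neg h, if_pos ((three_par _ _).2 h), add_comm]

theorem Au_mono {f g : ℝ → ℝ} (h : ∀ w, f w ≤ g w) (u : ℕ) : ∀ w, Au f u w ≤ Au g u w := by
  induction u with
  | zero => exact h
  | succ u ih =>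
    intro w
    show (Au f u (w / 2) + Au f u ((3 * w + 1) / 2)) / 2 ≤ (Au g u (w / 2) + Au g u ((3 * w + 1) / 2)) / 2
    linarith [ih (w / 2), ih ((3 * w + 1) / 2)]

/-- the potential -/
noncomputable def psi (w : ℝ) : ℝ := √(1 + |w|)

theorem psi_pos (w : ℝ) : 1 ≤ psi w := by
  unfold psi
  rw [Real.one_le_sqrt]
  linarith [abs_nonneg w]

theorem psi_half (w : ℝ) : psi (w / 2) + psi ((3 * w + 1) / 2) ≤ 2 * (97 / 100 * psi w + 36 / 100) := by
  set s := psi w with hs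
  have hs0 : 1 ≤ s := psi_pos w
  have hs2 : s ^ 2 = 1 + |w| := by
    rw [hs]
    unfold psi
    rw [Real.sq_sqrt (by linarith [abs_nonneg w])]
  have h1 : psi (w / 2) ≤ 7072 / 10000 * (s + 1) := by
    unfold psi
    apply Real.sqrt_le_iff.2
    refine ⟨by positivity, ?_⟩
    rw [abs_div, abs_of_pos (by norm_num : (0 : ℝ) < 2)]
    nlinarith
  have h2 : psi ((3 * w + 1) / 2) ≤ 12248 / 10000 * s := by
    unfold psi
    apply Real.sqrt_le_iff.2
    refine ⟨by positivity, ?_⟩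
    rw [abs_div, abs_of_pos (by norm_num : (0 : ℝ) < 2)]
    have h3 : |3 * w + 1| ≤ 3 * |w| + 1 := by
      calc |3 * w + 1| ≤ |3 * w| + |1| := abs_add_le _ _
        _ = 3 * |w| + 1 := by rw [abs_mul, abs_of_pos (by norm_num : (0 : ℝ) < 3), abs_one]
    nlinarith
  linarith

theorem Au_psi (u : ℕ) : ∀ w, Au psi u w ≤ (97 / 100) ^ u * psi w + 12 * (1 - (97 / 100) ^ u) := by
  induction u with
  | zero =>
    intro w
    rw [pow_zero]
    show psi w ≤ _
    linarith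
  | succ u ih =>
    intro w
    show (Au psi u (w / 2) + Au psi u ((3 * w + 1) / 2)) / 2 ≤ _
    have h1 := ih (w / 2)
    have h2 := ih ((3 * w + 1) / 2)
    have h3 := psi_half w
    have hq : (0 : ℝ) ≤ (97 / 100) ^ u := by positivity
    have h4 := mul_le_mul_of_nonneg_left h3 hq
    rw [pow_succ]
    linarith

/-- the truncated potential -/
noncomputable def psiX (X : ℕ) (w : ℝ) : ℝ := if (X : ℝ) < |w| then psi w else 0

theorem psiX_nonneg (X : ℕ) (w : ℝ) : 0 ≤ psiX X w := by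
  unfold psiX
  split_ifs
  · linarith [psi_pos w]
  · exact le_rfl

theorem Au_zero {f : ℝ → ℝ} (u : ℕ) : ∀ w, (∀ v, |v| + 1 ≤ (3 / 2) ^ u * (|w| + 1) → f v = 0) → Au f u w = 0 := by
  induction u with
  | zero =>
    intro w h
    exact h w (by rw [pow_zero, one_mul])
  | succ u ih =>
    intro w h
    show (Au f u (w / 2) + Au f u ((3 * w + 1) / 2)) / 2 = 0
    have hw := abs_nonneg w
    have hq : (0 : ℝ) < (3 / 2) ^ u := by positivity
    rw [ih (w / 2) (fun v hv => h v (hv.trans ?_)), ih ((3 * w + 1) / 2) (fun v hv => h v (hv.trans ?_))]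
    · norm_num
    · rw [pow_succ, mul_assoc]
      apply mul_le_mul_of_nonneg_left _ hq.le
      rw [abs_div, abs_of_pos (by norm_num : (0 : ℝ) < 2)]
      have h3 : |3 * w + 1| ≤ 3 * |w| + 1 := by
        calc |3 * w + 1| ≤ |3 * w| + |1| := abs_add_le _ _
          _ = 3 * |w| + 1 := by rw [abs_mul, abs_of_pos (by norm_num : (0 : ℝ) < 3), abs_one]
      linarith
    · rw [pow_succ, mul_assoc]
      apply mul_le_mul_of_nonneg_left _ hq.le
      rw [abs_div, abs_of_pos (by norm_num : (0 : ℝ) < 2)]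
      linarith

theorem trunc : ∃ u X : ℕ, 1 ≤ u ∧ ∀ w, Au (psiX X) u w ≤ psi w / 2 := by
  obtain ⟨u, hu⟩ := exists_pow_lt_of_lt_one (show (0 : ℝ) < 1 / 4 by norm_num) (show (97 / 100 : ℝ) < 1 by norm_num)
  obtain ⟨X, hX⟩ := exists_nat_ge ((3 / 2 : ℝ) ^ (u + 1) * (48 ^ 2 + 1))
  refine ⟨u + 1, X, by omega, fun w => ?_⟩
  have hu' : (97 / 100 : ℝ) ^ (u + 1) ≤ 1 / 4 := by
    rw [pow_succ]
    have : (0 : ℝ) ≤ (97 / 100) ^ u := by positivity
    nlinarith
  rcases le_total (|w|) (48 ^ 2) with hw | hw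
  · rw [Au_zero (u + 1) w (fun v hv => ?_)]
    · linarith [psi_pos w]
    · unfold psiX
      rw [if_neg]
      push Not
      have h1 : (3 / 2 : ℝ) ^ (u + 1) * (|w| + 1) ≤ (3 / 2) ^ (u + 1) * (48 ^ 2 + 1) :=
        mul_le_mul_of_nonneg_left (by linarith) (by positivity)
      linarith
  · have h1 : 48 ≤ psi w := by
      unfold psi
      rw [show (48 : ℝ) = √(48 ^ 2) by rw [Real.sqrt_sq (by norm_num)]]
      exact Real.sqrt_le_sqrt (by linarith)
    have h2 : Au (psiX X) (u + 1) w ≤ Au psi (u + 1) w := by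
      apply Au_mono
      intro v
      unfold psiX
      split_ifs
      · exact le_rfl
      · linarith [psi_pos v]
    have h3 := Au_psi (u + 1) w
    have h4 : (97 / 100 : ℝ) ^ (u + 1) * psi w ≤ 1 / 4 * psi w :=
      mul_le_mul_of_nonneg_right hu' (by linarith)
    have h5 : (0 : ℝ) ≤ (97 / 100) ^ (u + 1) := by positivity
    linarith

end Pool.Agent.Q74.BL
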