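import Pool.Agent.Q74.BL.Nx

/-! # Project BL: the total potential of a family decreases to the number of levels -/

set_option autoImplicit false

namespace Pool.Agent.Q74.BL

open Finset
open Pool.Agent.Q158.Pair (T)
open Pool.Agent.Q74.AR (oc oc_le)
open Pool.Agent.Q74.KP (EE Pe EE_mono EE_add EE_mul EE_const EE_sum)

/-- the potential of a family of forms -/
noncomputable def Q (V : Finset (ℕ × ℤ)) (θ : ℝ) : ℝ := ∑ z ∈ V, psi (ww θ z)

theorem sum_image_le' {α β : Type*} [DecidableEq β] (s : Finset α) (f : α → β) (g : β → ℝ) (hg : ∀ b, 0 ≤ g b) :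
    ∑ b ∈ s.image f, g b ≤ ∑ a ∈ s, g (f a) := by
  classical
  induction s using Finset.induction_on with
  | empty => simp
  | insert a s ha ih =>
    rw [image_insert, sum_insert ha]
    by_cases h : f a ∈ s.image f
    · rw [insert_eq_of_mem h]
      linarith [hg (f a)]
    · rw [sum_insert h]
      linarith

/-- few forms are close to the main line -/
theorem card_close (V : Finset (ℕ × ℤ)) (θ : ℝ) (A X : ℕ) (hV : ∀ z ∈ V, z.1 ≤ A) :
    ((V.filter (fun z => |ww θ z| ≤ X)).card : ℝ) ≤ (A + 1) * (2 * X + 1) := by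
  classical
  have h1 : V.filter (fun z => |ww θ z| ≤ X) ⊆
      (range (A + 1)).biUnion (fun a => (Icc ⌈3 ^ a * θ - X⌉ ⌊3 ^ a * θ + X⌋).image (fun b => (a, b))) := by
    intro z hz
    rw [mem_filter] at hz
    rw [mem_biUnion]
    refine ⟨z.1, mem_range.2 (by have := hV z hz.1; omega), ?_⟩
    rw [mem_image]
    refine ⟨z.2, ?_, rfl⟩
    have h2 := abs_le.1 hz.2
    unfold ww at h2
    rw [mem_Icc]
    constructor
    · apply Int.ceil_le.2
      linarith
    · apply Int.le_floor.2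
      linarith
  have h2 : ∀ a ∈ range (A + 1), ((Icc ⌈(3 : ℝ) ^ a * θ - X⌉ ⌊3 ^ a * θ + X⌋).image (fun b => (a, b))).card ≤ 2 * X + 1 := by
    intro a _
    refine card_image_le.trans ?_
    rw [Int.card_Icc]
    have h3 : (⌊(3 : ℝ) ^ a * θ + X⌋ : ℝ) ≤ 3 ^ a * θ + X := Int.floor_le _
    have h4 : (3 : ℝ) ^ a * θ - X ≤ ⌈(3 : ℝ) ^ a * θ - X⌉ := Int.le_ceil _
    have h5 : (⌊(3 : ℝ) ^ a * θ + X⌋ : ℝ) - ⌈(3 : ℝ) ^ a * θ - X⌉ ≤ 2 * X := by linarith
    have h6 : ⌊(3 : ℝ) ^ a * θ + X⌋ - ⌈(3 : ℝ) ^ a * θ - X⌉ ≤ 2 * X := by exact_mod_cast h5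
    omega
  have h3 : (V.filter (fun z => |ww θ z| ≤ X)).card ≤ (A + 1) * (2 * X + 1) := by
    refine (card_le_card h1).trans (card_biUnion_le.trans ?_)
    refine (sum_le_card_nsmul _ _ _ h2).trans ?_
    rw [card_range, smul_eq_mul]
  exact_mod_cast h3

/-- the levels after `u` steps -/
theorem nx_lev {V : Finset (ℕ × ℤ)} {A : ℕ} (hV : ∀ z ∈ V, z.1 ≤ A) (u : ℕ) (x : ℤ) :
    ∀ z ∈ V.image (nx u x), z.1 ≤ A + u := by
  intro z hz
  obtain ⟨y, hy, rfl⟩ := mem_image.1 hz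
  have h1 := hV y hy
  have h2 := oc_le u (3 ^ y.1 * x + y.2)
  unfold nx
  simp only
  omega

theorem psi_le {w : ℝ} {X : ℕ} (h : |w| ≤ X) : psi w ≤ psi X := by
  unfold psi
  apply Real.sqrt_le_sqrt
  rw [abs_of_nonneg (Nat.cast_nonneg X : (0 : ℝ) ≤ (X : ℝ))]
  linarith

/-- one block of `u` steps, one value of the base -/
theorem Q_point {V : Finset (ℕ × ℤ)} {A : ℕ} (hV : ∀ z ∈ V, z.1 ≤ A) (u X : ℕ) (θ : ℝ) (x : ℤ) :
    Q (V.image (nx u x)) ((θ + x) / 2 ^ u) ≤ (A + u + 1) * ((2 * X + 1) * psi X) +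
      ∑ z ∈ V, psiX X (ww ((θ + x) / 2 ^ u) (nx u x z)) := by
  unfold Q
  rw [← sum_filter_add_sum_filter_not (V.image (nx u x)) (fun z => |ww ((θ + x) / 2 ^ u) z| ≤ X)]
  have h1 : ∑ z ∈ (V.image (nx u x)).filter (fun z => |ww ((θ + x) / 2 ^ u) z| ≤ X), psi (ww ((θ + x) / 2 ^ u) z) ≤
      (A + u + 1) * ((2 * X + 1) * psi X) := by
    refine (sum_le_card_nsmul _ _ (psi X) fun z hz => psi_le (mem_filter.1 hz).2).trans ?_
    rw [nsmul_eq_mul]
    have h2 := card_close (V.image (nx u x)) ((θ + x) / 2 ^ u) (A + u) X (nx_lev hV u x)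
    push_cast at h2
    have h3 : 0 ≤ psi X := by linarith [psi_pos (X : ℝ)]
    calc _ ≤ ((A : ℝ) + u + 1) * (2 * X + 1) * psi X := mul_le_mul_of_nonneg_right h2 h3
      _ = _ := by ring
  have h2 : ∑ z ∈ (V.image (nx u x)).filter (fun z => ¬ |ww ((θ + x) / 2 ^ u) z| ≤ X), psi (ww ((θ + x) / 2 ^ u) z) ≤
      ∑ z ∈ V, psiX X (ww ((θ + x) / 2 ^ u) (nx u x z)) := by
    refine le_trans ?_ (sum_image_le' V (nx u x) (fun z => psiX X (ww ((θ + x) / 2 ^ u) z)) fun z => psiX_nonneg X _)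
    rw [sum_filter]
    apply sum_le_sum
    intro z _
    unfold psiX
    by_cases h : |ww ((θ + x) / 2 ^ u) z| ≤ X
    · rw [if_neg (not_not.2 h), if_neg (not_lt.2 h)]
    · rw [if_pos h, if_pos (lt_of_not_ge h)]
  linarith

/-- one block of `u` steps -/
theorem Q_step {u X : ℕ} (hA : ∀ w, Au (psiX X) u w ≤ psi w / 2) {V : Finset (ℕ × ℤ)} {A : ℕ}
    (hV : ∀ z ∈ V, z.1 ≤ A) (θ : ℝ) :
    EE u (fun x => Q (V.image (nx u x)) ((θ + x) / 2 ^ u)) ≤ (A + u + 1) * ((2 * X + 1) * psi X) + Q V θ / 2 := by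
  refine (EE_mono u fun x => Q_point hV u X θ x).trans ?_
  rw [EE_add, EE_const, EE_sum]
  have h1 : ∑ z ∈ V, EE u (fun x => psiX X (ww ((θ + x) / 2 ^ u) (nx u x z))) ≤ ∑ z ∈ V, psi (ww θ z) / 2 := by
    apply sum_le_sum
    intro z _
    rw [Au_avg]
    exact hA _
  unfold Q
  rw [sum_div]
  linarith

/-- many blocks: the mean potential is bounded by the number of levels -/
theorem Q_iter {u X : ℕ} (hA : ∀ w, Au (psiX X) u w ≤ psi w / 2) {V : Finset (ℕ × ℤ)} {A : ℕ}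
    (hV : ∀ z ∈ V, z.1 ≤ A) (j : ℕ) :
    EE (u * j) (fun x => Q (V.image (nx (u * j) x)) (x / 2 ^ (u * j))) ≤
      2 * ((2 * X + 1) * psi X) * (A + u * j + 1) + Q V 0 / 2 ^ j := by
  have hK : 0 ≤ (2 * (X : ℝ) + 1) * psi X := by
    have : 0 ≤ psi X := by linarith [psi_pos (X : ℝ)]
    positivity
  induction j with
  | zero =>
    rw [Nat.mul_zero]
    unfold EE
    rw [pow_zero, sum_range_one, pow_zero, div_one, Nat.cast_zero]
    have e1 : V.image (nx 0 0) = V := by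
      have : nx 0 0 = id := by
        funext z
        exact nx_zero z
      rw [this, image_id]
    show Q (V.image (nx 0 0)) (((0 : ℤ) : ℝ) / 1) ≤ _
    rw [e1, Int.cast_zero, zero_div, div_one, Nat.cast_zero]
    have : 0 ≤ 2 * ((2 * (X : ℝ) + 1) * psi X) * (A + u * 0 + 1) := by positivity
    linarith
  | succ j ih =>
    rw [Nat.mul_succ, EE_split]
    have h1 : ∀ x : ℤ, EE u (fun x' => Q (V.image (nx (u * j + u) (2 ^ (u * j) * x' + x)))
        (((2 ^ (u * j) * x' + x : ℤ) : ℝ) / 2 ^ (u * j + u))) ≤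
        (A + u * j + u + 1) * ((2 * X + 1) * psi X) + Q (V.image (nx (u * j) x)) (x / 2 ^ (u * j)) / 2 := by
      intro x
      have h2 := Q_step hA (nx_lev hV (u * j) x) ((x : ℝ) / 2 ^ (u * j))
      push_cast at h2
      refine le_trans (le_of_eq ?_) h2
      congr 1
      funext x'
      rw [image_image]
      congr 1
      · congr 1
        funext z
        exact nx_add (u * j) u x x' z
      · rw [pow_add]
        push_cast
        field_simp
        ring
    refine (EE_mono _ h1).trans ?_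
    rw [EE_add, EE_const]
    have e2 : EE (u * j) (fun x => Q (V.image (nx (u * j) x)) ((x : ℝ) / 2 ^ (u * j)) / 2) =
        EE (u * j) (fun x => Q (V.image (nx (u * j) x)) ((x : ℝ) / 2 ^ (u * j))) / 2 := by
      have := EE_mul (u * j) (1 / 2) (fun x : ℤ => Q (V.image (nx (u * j) x)) ((x : ℝ) / 2 ^ (u * j)))
      calc _ = EE (u * j) (fun x : ℤ => 1 / 2 * Q (V.image (nx (u * j) x)) ((x : ℝ) / 2 ^ (u * j))) := by
            congr 1
            funext x
            ring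
        _ = _ := by rw [this]; ring
    rw [e2, pow_succ]
    have e3 : Q V 0 / (2 ^ j * 2) = Q V 0 / 2 ^ j / 2 := by rw [div_div]
    rw [e3]
    push_cast
    nlinarith [mul_nonneg hK (Nat.cast_nonneg u : (0 : ℝ) ≤ u)]

end Pool.Agent.Q74.BL
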