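import Pool.Agent.Q74.BL.Pot

/-! # Project BL: upper bound for the mean number of values -/

set_option autoImplicit false

namespace Pool.Agent.Q74.BL

open Finset
open Pool.Agent.Q158.Pair (T nc nc_nonneg nc_per sum_nc Co Co_meet surv surv_le surv_nonneg)
open Pool.Agent.Q74.AR (oc oc_le)
open Pool.Agent.Q74.KP (EE Pe EE_mono EE_add EE_mul EE_const EE_sum EE_aff three_odd)

/-- number of values on a family, by a tree: the main line `c` and one edge for each form -/
theorem card_line (f : ℕ × ℤ → ℤ) (c : ℕ → ℤ) (A : ℕ) :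
    (((range (A + 1)).image (fun a => f (a, c a))).card : ℝ) ≤
      1 + ∑ a ∈ range A, (if f (a, c a) = f (a + 1, c (a + 1)) then (0 : ℝ) else 1) := by
  classical
  induction A with
  | zero => simp
  | succ A ih =>
    rw [range_add_one, image_insert, sum_range_succ]
    by_cases h : f (A, c A) = f (A + 1, c (A + 1))
    · rw [if_pos h, insert_eq_of_mem, add_zero]
      · exact ih
      · rw [mem_image]
        exact ⟨A, mem_range.2 (by omega), h⟩
    · rw [if_neg h]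
      have h1 : ((insert (f (A + 1, c (A + 1))) ((range (A + 1)).image (fun a => f (a, c a)))).card : ℝ) ≤
          ((range (A + 1)).image (fun a => f (a, c a))).card + 1 := by exact_mod_cast card_insert_le _ _
      linarith

theorem card_tree (f : ℕ × ℤ → ℤ) (c : ℕ → ℤ) (A : ℕ) (V : Finset (ℕ × ℤ)) (hV : ∀ z ∈ V, z.1 ≤ A) :
    ((V.image f).card : ℝ) ≤ 1 + ∑ a ∈ range A, (if f (a, c a) = f (a + 1, c (a + 1)) then (0 : ℝ) else 1) +
      ∑ z ∈ V, (if f z = f (z.1, c z.1) then (0 : ℝ) else 1) := by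
  classical
  have h1 : V.image f ⊆ (range (A + 1)).image (fun a => f (a, c a)) ∪
      (V.filter (fun z => ¬ f z = f (z.1, c z.1))).image f := by
    intro y hy
    obtain ⟨z, hz, rfl⟩ := mem_image.1 hy
    rw [mem_union]
    by_cases h : f z = f (z.1, c z.1)
    · left
      rw [mem_image]
      exact ⟨z.1, mem_range.2 (by have := hV z hz; omega), h.symm⟩
    · right
      exact mem_image.2 ⟨z, mem_filter.2 ⟨hz, h⟩, rfl⟩
  have h2 : ((V.image f).card : ℝ) ≤ ((range (A + 1)).image (fun a => f (a, c a))).card +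
      ((V.filter (fun z => ¬ f z = f (z.1, c z.1))).card : ℝ) := by
    have := (card_le_card h1).trans (card_union_le _ _)
    have h3 := card_image_le (s := V.filter (fun z => ¬ f z = f (z.1, c z.1))) (f := f)
    exact_mod_cast this.trans (Nat.add_le_add_left h3 _)
  have h3 : ((V.filter (fun z => ¬ f z = f (z.1, c z.1))).card : ℝ) =
      ∑ z ∈ V, (if f z = f (z.1, c z.1) then (0 : ℝ) else 1) := by
    rw [card_filter]
    push_cast
    apply sum_congr rfl
    intro z _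
    by_cases h : f z = f (z.1, c z.1)
    · rw [if_neg (not_not.2 h), if_pos h]
    · rw [if_pos h, if_neg h]
  have h4 := card_line f c A
  linarith

/-- the main line -/
noncomputable def ml (θ : ℝ) (a : ℕ) : ℤ := ⌊3 ^ a * θ⌋

/-- the structural cost of a family at base `N` -/
noncomputable def Dr (r : ℕ) (A : ℕ) (V : Finset (ℕ × ℤ)) (θ : ℝ) (N : ℤ) : ℝ :=
  ∑ a ∈ range A, nc r (1, ml θ (a + 1) - 3 * ml θ a) (3 ^ a * N + ml θ a) +
  ∑ z ∈ V, nc r (0, z.2 - ml θ z.1) (3 ^ z.1 * N + ml θ z.1)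

theorem nc_ge (r : ℕ) (z : ℕ × ℤ) (x y : ℤ) (h : 3 ^ z.1 * x + z.2 = y) :
    (if T^[r] x = T^[r] y then (0 : ℝ) else 1) ≤ nc r z x := by
  subst h
  unfold nc
  by_cases hC : Co r z x
  · rw [if_pos (Co_meet r z x hC), if_pos hC]
  · rw [if_neg hC]
    split_ifs <;> norm_num

theorem val_le (r A : ℕ) (V : Finset (ℕ × ℤ)) (hV : ∀ z ∈ V, z.1 ≤ A) (θ : ℝ) (N : ℤ) :
    ((V.image (fun z => T^[r] (3 ^ z.1 * N + z.2))).card : ℝ) ≤ 1 + Dr r A V θ N := by
  refine (card_tree (fun z => T^[r] (3 ^ z.1 * N + z.2)) (ml θ) A V hV).trans ?_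
  unfold Dr
  rw [← add_assoc]
  apply add_le_add
  · apply add_le_add le_rfl
    apply sum_le_sum
    intro a _
    apply nc_ge
    simp only
    rw [pow_succ]
    ring
  · apply sum_le_sum
    intro z _
    have h1 := nc_ge r (0, z.2 - ml θ z.1) (3 ^ z.1 * N + ml θ z.1) (3 ^ z.1 * N + z.2) (by simp only; ring)
    refine le_trans (le_of_eq ?_) h1
    simp only [eq_comm]

theorem nc_per' (t : ℕ) (z : ℕ × ℤ) : Pe t (nc t z) := by
  intro x j
  have := nc_per t z x j
  push_cast at this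
  exact this

theorem EE_nc (r : ℕ) (z : ℕ × ℤ) (a : ℕ) (c : ℤ) : EE r (fun N => nc r z (3 ^ a * N + c)) = surv r z := by
  rw [EE_aff (nc_per' r z) (3 ^ a) (three_odd a) c]
  unfold EE
  rw [sum_nc]
  field_simp

theorem Dr_mean {C : ℝ} (hC0 : 0 < C) (hC : ∀ t : ℕ, 1 ≤ t → ∀ (a : ℕ) (b : ℤ),
    surv t (a, b) ≤ C * (1 + a + √(Real.log (2 + |(b:ℝ)|))) / √t) (r : ℕ) (hr : 1 ≤ r) (A : ℕ) (V : Finset (ℕ × ℤ)) (θ : ℝ) :
    EE r (Dr r A V θ) ≤ C / √r * (4 * A + 3 * Q V θ) := by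
  have hsr : 0 < √(r : ℝ) := Real.sqrt_pos.2 (by exact_mod_cast hr)
  unfold Dr
  rw [EE_add, EE_sum, EE_sum]
  have h1 : ∑ a ∈ range A, EE r (fun N => nc r (1, ml θ (a + 1) - 3 * ml θ a) (3 ^ a * N + ml θ a)) ≤
      C / √r * (4 * A) := by
    have h2 : ∀ a ∈ range A, EE r (fun N => nc r (1, ml θ (a + 1) - 3 * ml θ a) (3 ^ a * N + ml θ a)) ≤ C / √r * 4 := by
      intro a _
      rw [EE_nc]
      refine (hC r hr 1 _).trans ?_
      rw [mul_div_assoc, mul_div_assoc', div_mul_eq_mul_div]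
      apply div_le_div_of_nonneg_right _ hsr.le
      apply mul_le_mul_of_nonneg_left _ hC0.le
      have h3 : (ml θ (a + 1) : ℝ) ≤ 3 ^ (a + 1) * θ := Int.floor_le _
      have h4 : 3 ^ (a + 1) * θ < ml θ (a + 1) + 1 := Int.lt_floor_add_one _
      have h5 : (ml θ a : ℝ) ≤ 3 ^ a * θ := Int.floor_le _
      have h6 : 3 ^ a * θ < ml θ a + 1 := Int.lt_floor_add_one _
      rw [pow_succ] at h3 h4
      have h7 : |((ml θ (a + 1) - 3 * ml θ a : ℤ) : ℝ)| ≤ 3 := by
        push_cast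
        rw [abs_le]
        constructor <;> linarith
      have h8 : √(Real.log (2 + |((ml θ (a + 1) - 3 * ml θ a : ℤ) : ℝ)|)) ≤ 2 := by
        apply Real.sqrt_le_iff.2
        refine ⟨by norm_num, ?_⟩
        have h9 := Real.log_le_sub_one_of_pos (show 0 < 2 + |((ml θ (a + 1) - 3 * ml θ a : ℤ) : ℝ)| by positivity)
        linarith
      push_cast at h8 ⊢
      linarith
    refine (sum_le_card_nsmul _ _ _ h2).trans (le_of_eq ?_)
    rw [card_range, nsmul_eq_mul]
    ring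
  have h2 : ∑ z ∈ V, EE r (fun N => nc r (0, z.2 - ml θ z.1) (3 ^ z.1 * N + ml θ z.1)) ≤ C / √r * (3 * Q V θ) := by
    unfold Q
    rw [mul_sum, mul_sum]
    apply sum_le_sum
    intro z _
    rw [EE_nc]
    refine (hC r hr 0 _).trans ?_
    rw [mul_div_assoc, mul_div_assoc', div_mul_eq_mul_div]
    apply div_le_div_of_nonneg_right _ hsr.le
    apply mul_le_mul_of_nonneg_left _ hC0.le
    have h5 : (ml θ z.1 : ℝ) ≤ 3 ^ z.1 * θ := Int.floor_le _
    have h6 : 3 ^ z.1 * θ < ml θ z.1 + 1 := Int.lt_floor_add_one _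
    have h7 : |((z.2 - ml θ z.1 : ℤ) : ℝ)| ≤ |ww θ z| + 1 := by
      have e1 : ((z.2 - ml θ z.1 : ℤ) : ℝ) = ww θ z + (3 ^ z.1 * θ - ml θ z.1) := by
        unfold ww
        push_cast
        ring
      rw [e1]
      refine (abs_add_le _ _).trans ?_
      have : |3 ^ z.1 * θ - (ml θ z.1 : ℝ)| ≤ 1 := by
        rw [abs_le]
        constructor <;> linarith
      linarith
    have hp := psi_pos (ww θ z)
    have hp2 : psi (ww θ z) ^ 2 = 1 + |ww θ z| := by
      unfold psi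
      rw [Real.sq_sqrt (by linarith [abs_nonneg (ww θ z)])]
    have h8 : √(Real.log (2 + |((z.2 - ml θ z.1 : ℤ) : ℝ)|)) ≤ 2 * psi (ww θ z) := by
      apply Real.sqrt_le_iff.2
      refine ⟨by linarith, ?_⟩
      have h9 := Real.log_le_sub_one_of_pos (show 0 < 2 + |((z.2 - ml θ z.1 : ℤ) : ℝ)| by positivity)
      nlinarith [abs_nonneg (ww θ z)]
    push_cast at h8 ⊢
    linarith
  linarith

/-- sums of nonnegative periodic functions over intervals -/
theorem sum_per_le {t : ℕ} {h : ℤ → ℝ} (hp : Pe t h) (h0 : ∀ x, 0 ≤ h x) (M : ℤ) (L : ℕ) (hL : 2 ^ t ≤ L) :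
    ∑ x ∈ Ico M (M + L), h x ≤ 2 * EE t h * L := by
  rw [Pool.Agent.Q158.Pair.sum_Ico_int]
  set q := L / 2 ^ t + 1 with hq
  have h2t : 0 < 2 ^ t := by positivity
  have hLq : L ≤ q * 2 ^ t := by
    rw [hq]
    have := Nat.div_add_mod L (2 ^ t)
    have h3 := Nat.mod_lt L h2t
    nlinarith
  have h1 : ∑ i ∈ range L, h (M + i) ≤ ∑ i ∈ range (q * 2 ^ t), h (M + i) :=
    sum_le_sum_of_subset_of_nonneg (range_subset_range.2 hLq) fun i _ _ => h0 _
  have h2 := Pool.Agent.Q158.Pair.sum_block (2 ^ t) h2t h (fun x j => by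
    have := hp x j
    push_cast
    exact this) q M
  rw [h2] at h1
  have h3 : ∑ i ∈ range (2 ^ t), h i = 2 ^ t * EE t h := by
    unfold EE
    field_simp
  rw [h3] at h1
  have h4 : 0 ≤ EE t h := Pool.Agent.Q74.KP.EE_nonneg t h0
  have h5 : (q : ℝ) * 2 ^ t ≤ 2 * L := by
    have : q * 2 ^ t ≤ 2 * L := by
      rw [hq]
      have := Nat.div_mul_le_self L (2 ^ t)
      nlinarith
    exact_mod_cast this
  calc _ ≤ (q : ℝ) * (2 ^ t * EE t h) := h1
    _ = (q * 2 ^ t) * EE t h := by ring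
    _ ≤ (2 * L) * EE t h := mul_le_mul_of_nonneg_right h5 h4
    _ = _ := by ring

end Pool.Agent.Q74.BL
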