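import Pool.Agent.Q74.BL.Up

/-! # Project BL: the upper bounds -/

set_option autoImplicit false

namespace Pool.Agent.Q74.BL

open Finset
open Pool.Agent.Q158.Pair (T nc nc_nonneg nc_per sum_nc Co Co_meet surv surv_le surv_nonneg)
open Pool.Agent.Q74.AR (oc oc_le)
open Pool.Agent.Q74.KP (EE Pe EE_mono EE_add EE_mul EE_const EE_sum EE_aff three_odd)

theorem fam_lev {A B : ℕ} : ∀ z ∈ fam A B, z.1 ≤ A := by
  intro z hz
  unfold fam at hz
  rw [mem_product] at hz
  have := mem_range.1 hz.1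
  omega

/-- the cost as a function of `n` -/
noncomputable def Dn (A B s r : ℕ) (n : ℤ) : ℝ :=
  Dr r (A + s) ((fam A B).image (nx s (n % 2 ^ s))) (((n % 2 ^ s : ℤ) : ℝ) / 2 ^ s) (n / 2 ^ s)

theorem Dr_nonneg (r A : ℕ) (V : Finset (ℕ × ℤ)) (θ : ℝ) (N : ℤ) : 0 ≤ Dr r A V θ N :=
  add_nonneg (sum_nonneg fun _ _ => nc_nonneg _ _ _) (sum_nonneg fun _ _ => nc_nonneg _ _ _)

theorem Dr_per (r A : ℕ) (V : Finset (ℕ × ℤ)) (θ : ℝ) : Pe r (Dr r A V θ) := by
  intro N j
  unfold Dr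
  have h : ∀ (z : ℕ × ℤ) (a : ℕ) (c : ℤ), nc r z (3 ^ a * (N + 2 ^ r * j) + c) = nc r z (3 ^ a * N + c) := by
    intro z a c
    have e : 3 ^ a * (N + 2 ^ r * j) + c = (3 ^ a * N + c) + 2 ^ r * (3 ^ a * j) := by ring
    rw [e]
    exact nc_per' r z _ _
  simp only [h]

theorem Dn_per (A B s r : ℕ) : Pe (s + r) (Dn A B s r) := by
  intro n j
  unfold Dn
  have h2 : (0 : ℤ) < 2 ^ s := by positivity
  have e1 : n + 2 ^ (s + r) * j = n + 2 ^ s * (2 ^ r * j) := by rw [pow_add]; ring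
  rw [e1, Int.add_mul_emod_self_left, Int.add_mul_ediv_left _ _ h2.ne']
  exact Dr_per r _ _ _ _ _

theorem NV_le (A B s r : ℕ) (n : ℤ) : (NV A B (s + r) n : ℝ) ≤ 1 + Dn A B s r n := by
  have e : n = 2 ^ s * (n / 2 ^ s) + n % 2 ^ s := (Int.mul_ediv_add_emod n (2 ^ s)).symm
  have h1 : (fam A B).image (fun z => T^[s + r] (3 ^ z.1 * n + z.2)) =
      ((fam A B).image (nx s (n % 2 ^ s))).image (fun z => T^[r] (3 ^ z.1 * (n / 2 ^ s) + z.2)) := by
    rw [image_image]
    congr 1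
    funext z
    simp only [Function.comp]
    rw [← nx_val, ← e]
  unfold NV Dn
  rw [h1]
  exact val_le r (A + s) _ (nx_lev fam_lev s _) _ _

theorem EE_congr {N : ℕ} {F G : ℤ → ℝ} (h : ∀ i : ℕ, i < 2 ^ N → F i = G i) : EE N F = EE N G := by
  unfold EE
  congr 1
  exact sum_congr rfl fun i hi => h i (mem_range.1 hi)

theorem EE_Dn (A B s r : ℕ) : EE (s + r) (Dn A B s r) =
    EE s (fun x => EE r (Dr r (A + s) ((fam A B).image (nx s x)) (x / 2 ^ s))) := by
  rw [EE_split]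
  apply EE_congr
  intro i hi
  congr 1
  funext x'
  unfold Dn
  have h2 : (0 : ℤ) < 2 ^ s := by positivity
  have hi' : (i : ℤ) < 2 ^ s := by exact_mod_cast hi
  have hi0 : (0 : ℤ) ≤ i := Int.natCast_nonneg i
  have e1 : (2 ^ s * x' + (i : ℤ)) % 2 ^ s = i := by
    rw [add_comm, Int.add_mul_emod_self_left]
    exact Int.emod_eq_of_lt hi0 hi'
  have e2 : (2 ^ s * x' + (i : ℤ)) / 2 ^ s = x' := by
    rw [add_comm, Int.add_mul_ediv_left _ _ h2.ne', Int.ediv_eq_zero_of_lt hi0 hi', zero_add]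
  rw [e1, e2]

theorem Q_fam (A B : ℕ) : Q (fam A B) 0 ≤ (((A + 1) * (2 * (B + 1)) ^ 2 : ℕ) : ℝ) := by
  unfold Q
  have h1 : ∀ z ∈ fam A B, psi (ww 0 z) ≤ (B : ℝ) + 1 := by
    intro z hz
    unfold fam at hz
    rw [mem_product, mem_Icc] at hz
    have h2 : |ww 0 z| ≤ B := by
      unfold ww
      rw [mul_zero, sub_zero, abs_le]
      exact ⟨by exact_mod_cast hz.2.1, by exact_mod_cast hz.2.2⟩
    unfold psi
    apply Real.sqrt_le_iff.2
    refine ⟨by positivity, ?_⟩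
    have : (0 : ℝ) ≤ B := Nat.cast_nonneg B
    nlinarith
  refine (sum_le_card_nsmul _ _ _ h1).trans ?_
  have h3 : (fam A B).card = (A + 1) * (2 * B + 1) := by
    unfold fam
    rw [card_product, card_range, Int.card_Icc]
    congr 1
    omega
  rw [h3, nsmul_eq_mul]
  push_cast
  have hA : (0 : ℝ) ≤ A := Nat.cast_nonneg A
  have hB : (0 : ℝ) ≤ B := Nat.cast_nonneg B
  have h4 : (2 * (B : ℝ) + 1) * (B + 1) ≤ (2 * (B + 1)) ^ 2 := by nlinarith
  calc ((A : ℝ) + 1) * (2 * B + 1) * (B + 1) = (A + 1) * ((2 * (B : ℝ) + 1) * (B + 1)) := by ring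
    _ ≤ _ := mul_le_mul_of_nonneg_left h4 (by positivity)

/-- mean number of values, upper bound -/
theorem mean_up : ∃ C C₁ : ℝ, 0 < C ∧ 0 < C₁ ∧ ∀ A B t : ℕ, C₁ * (1 + Real.log (1 + A) + Real.log (1 + B)) ≤ t →
    ∀ (M : ℤ) (L : ℕ), 2 ^ t ≤ L →
    ∑ n ∈ Ico M (M + L), ((NV A B t n : ℝ) - 1) ≤ C * ((1 + A + Real.log (1 + B)) / √t) * L := by
  obtain ⟨C, hC0, hC⟩ := surv_le
  obtain ⟨u, X, hu, hA⟩ := trunc
  set K : ℝ := (2 * X + 1) * psi X with hK
  have hpX := psi_pos (X : ℝ)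
  have hK0 : 0 < K := by positivity
  have hur : (1 : ℝ) ≤ u := by exact_mod_cast hu
  refine ⟨2 * (C * √2 * (4 + 3 * (2 * K) + 3) * (20 * u)), 20 * u, by positivity, by positivity,
    fun A B t ht M L hL => ?_⟩
  set lA := Real.log (1 + (A : ℝ)) with hlA
  set lB := Real.log (1 + (B : ℝ)) with hlB
  have hA0 : (0 : ℝ) ≤ A := Nat.cast_nonneg A
  have hB0 : (0 : ℝ) ≤ B := Nat.cast_nonneg B
  have hlA0 : 0 ≤ lA := Real.log_nonneg (by linarith)
  have hlB0 : 0 ≤ lB := Real.log_nonneg (by linarith)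
  have hlAA : lA ≤ A := by
    have := Real.log_le_sub_one_of_pos (show (0 : ℝ) < 1 + A by positivity)
    linarith
  set P := (A + 1) * (2 * (B + 1)) ^ 2 with hP
  have hP0 : 0 < P := by positivity
  set j := Nat.log 2 P + 1 with hj
  have hj1 : P < 2 ^ j := Nat.lt_pow_succ_log_self (by norm_num) P
  have hj2 : (j : ℝ) ≤ 10 * (1 + lA + lB) := by
    have h1 : 2 ^ (j - 1) ≤ P := Nat.pow_log_le_self 2 hP0.ne'
    have h2 : ((j - 1 : ℕ) : ℝ) * Real.log 2 ≤ Real.log P := by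
      rw [← Real.log_pow]
      apply Real.log_le_log (by positivity)
      exact_mod_cast h1
    have h3 : Real.log (P : ℝ) = lA + 2 * (Real.log 2 + lB) := by
      rw [hP]
      push_cast
      rw [Real.log_mul (by positivity) (by positivity), Real.log_pow, Real.log_mul (by norm_num) (by positivity),
        add_comm (A : ℝ) 1, add_comm (B : ℝ) 1]
      push_cast
      ring
    have h4 : ((j - 1 : ℕ) : ℝ) = j - 1 := by
      rw [hj]
      push_cast
      simp
    rw [h3, h4] at h2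
    have h5 := Real.log_two_gt_d9
    have h6 := Real.log_two_lt_d9
    nlinarith
  set s := u * j with hs
  have hsr : (s : ℝ) ≤ 10 * u * (1 + lA + lB) := by
    rw [hs]
    push_cast
    nlinarith
  have hst2 : 2 * (s : ℝ) ≤ t := by linarith
  have hst : s ≤ t := by
    have : (s : ℝ) ≤ t := by
      have : (0 : ℝ) ≤ s := Nat.cast_nonneg s
      linarith
    exact_mod_cast this
  obtain ⟨r, hr⟩ := Nat.exists_eq_add_of_le hst
  have hs1 : 1 ≤ s := by
    rw [hs]
    exact Nat.mul_pos hu (by omega)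
  have htr : (t : ℝ) = s + r := by exact_mod_cast hr
  have hr2 : (t : ℝ) / 2 ≤ r := by linarith
  have ht1 : (1 : ℝ) ≤ t := by
    have : (1 : ℝ) ≤ s := by exact_mod_cast hs1
    linarith
  have hr1 : 1 ≤ r := by
    have : (0 : ℝ) < r := by linarith
    have : 0 < r := by exact_mod_cast this
    omega
  -- the mean cost
  have h1 : EE t (Dn A B s r) ≤ C / √r * (4 * (A + s) + 3 * (2 * K * (A + s + 1) + 1)) := by
    rw [hr, EE_Dn]
    refine (EE_mono s (fun x => Dr_mean hC0 hC r hr1 (A + s) _ _)).trans ?_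
    rw [EE_mul, EE_add, EE_const, EE_mul]
    have h2 := Q_iter hA (fam_lev (A := A) (B := B)) j
    rw [← hs, ← hK] at h2
    have h3 : Q (fam A B) 0 / 2 ^ j ≤ 1 := by
      rw [div_le_one (by positivity)]
      refine (Q_fam A B).trans ?_
      exact_mod_cast hj1.le
    have hsr : 0 < √(r : ℝ) := Real.sqrt_pos.2 (by exact_mod_cast hr1)
    apply mul_le_mul_of_nonneg_left _ (by positivity)
    have e1 : ((u * j : ℕ) : ℝ) = u * j := by push_cast; ring
    have e2 : (s : ℝ) = u * j := by rw [hs, e1]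
    push_cast
    rw [← e2] at h2
    linarith
  have h2 : √(t : ℝ) ≤ √2 * √r := by
    rw [← Real.sqrt_mul (by norm_num)]
    apply Real.sqrt_le_sqrt
    linarith
  have hst0 : 0 < √(t : ℝ) := Real.sqrt_pos.2 (by linarith)
  have hsr0 : 0 < √(r : ℝ) := Real.sqrt_pos.2 (by exact_mod_cast hr1)
  have h3 : C / √r ≤ C * √2 / √t := by
    rw [div_le_div_iff₀ hsr0 hst0]
    calc C * √(t : ℝ) ≤ C * (√2 * √r) := mul_le_mul_of_nonneg_left h2 hC0.le
      _ = C * √2 * √r := by ring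
  set R := 1 + (A : ℝ) + lB with hR
  have hR1 : 1 ≤ R := by linarith
  have h4 : (4 * ((A : ℝ) + s) + 3 * (2 * K * (A + s + 1) + 1)) ≤ (4 + 3 * (2 * K) + 3) * (20 * u) * R := by
    have h5 : (A : ℝ) + s + 1 ≤ 20 * u * R := by
      have h6 : 1 + lA + lB ≤ R := by linarith
      have h7 : 10 * (u : ℝ) * (1 + lA + lB) ≤ 10 * u * R := mul_le_mul_of_nonneg_left h6 (by positivity)
      have h8 : R ≤ u * R := by nlinarith
      linarith
    have h9 : (4 * ((A : ℝ) + s) + 3 * (2 * K * (A + s + 1) + 1)) ≤ (4 + 3 * (2 * K) + 3) * (A + s + 1) := by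
      have : (0 : ℝ) ≤ s := Nat.cast_nonneg s
      nlinarith
    calc _ ≤ (4 + 3 * (2 * K) + 3) * (A + s + 1) := h9
      _ ≤ (4 + 3 * (2 * K) + 3) * (20 * u * R) := mul_le_mul_of_nonneg_left h5 (by positivity)
      _ = _ := by ring
  have h5 : EE t (Dn A B s r) ≤ C * √2 * (4 + 3 * (2 * K) + 3) * (20 * u) * (R / √t) := by
    calc _ ≤ C / √r * (4 * (A + s) + 3 * (2 * K * (A + s + 1) + 1)) := h1
      _ ≤ C * √2 / √t * ((4 + 3 * (2 * K) + 3) * (20 * u) * R) := by
        apply mul_le_mul h3 h4 _ (by positivity)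
        positivity
      _ = _ := by ring
  -- the sum over the interval
  have h6 : ∑ n ∈ Ico M (M + L), ((NV A B t n : ℝ) - 1) ≤ ∑ n ∈ Ico M (M + L), Dn A B s r n := by
    apply sum_le_sum
    intro n _
    have := NV_le A B s r n
    rw [← hr] at this
    linarith
  have h7 : ∑ n ∈ Ico M (M + L), Dn A B s r n ≤ 2 * EE t (Dn A B s r) * L := by
    refine sum_per_le ?_ (fun x => Dr_nonneg _ _ _ _ _) M L hL
    rw [hr]
    exact Dn_per A B s r
  have h8 : 2 * EE t (Dn A B s r) * L ≤ 2 * (C * √2 * (4 + 3 * (2 * K) + 3) * (20 * u) * (R / √t)) * L :=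
    mul_le_mul_of_nonneg_right (by linarith) (Nat.cast_nonneg L)
  calc _ ≤ _ := h6
    _ ≤ _ := h7
    _ ≤ _ := h8
    _ = _ := by ring

theorem NV_pos (A B t : ℕ) (n : ℤ) : 1 ≤ NV A B t n := by
  unfold NV
  apply Finset.card_pos.2
  apply Finset.Nonempty.image
  refine ⟨(0, 0), ?_⟩
  unfold fam
  rw [mem_product, mem_range, mem_Icc]
  refine ⟨by simp, by simp, by simp⟩

/-- proportion of the families which have not merged -/
theorem prop_up : ∃ C : ℝ, 0 < C ∧ ∀ A B t : ℕ, 1 ≤ t → ∀ (M : ℤ) (L : ℕ), 2 ^ t ≤ L →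
    ({n : ℤ | M ≤ n ∧ n < M + L ∧ 2 ≤ NV A B t n}.ncard : ℝ) ≤ C * ((1 + A + Real.log (1 + B)) / √t) * L := by
  classical
  obtain ⟨C, C₁, hC, hC₁, h⟩ := mean_up
  refine ⟨C + √(2 * C₁), by positivity, fun A B t ht M L hL => ?_⟩
  set lA := Real.log (1 + (A : ℝ)) with hlA
  set lB := Real.log (1 + (B : ℝ)) with hlB
  have hA0 : (0 : ℝ) ≤ A := Nat.cast_nonneg A
  have hB0 : (0 : ℝ) ≤ B := Nat.cast_nonneg B
  have hlB0 : 0 ≤ lB := Real.log_nonneg (by linarith)
  have hlAA : lA ≤ A := by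
    have := Real.log_le_sub_one_of_pos (show (0 : ℝ) < 1 + A by positivity)
    linarith
  have ht0 : (0 : ℝ) < t := by exact_mod_cast ht
  have hst : 0 < √(t : ℝ) := Real.sqrt_pos.2 ht0
  set R := 1 + (A : ℝ) + lB with hR
  have hR1 : 1 ≤ R := by linarith
  have hL0 : (0 : ℝ) ≤ L := Nat.cast_nonneg L
  rw [Pool.Agent.Q158.Pair.ncard_eq (fun n => 2 ≤ NV A B t n)]
  rcases le_total (C₁ * (1 + lA + lB)) t with hc | hc
  · have h1 := h A B t hc M L hL
    have h2 : ((((Ico M (M + L)).filter (fun n => 2 ≤ NV A B t n)).card : ℕ) : ℝ) ≤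
        ∑ n ∈ Ico M (M + L), ((NV A B t n : ℝ) - 1) := by
      rw [card_filter]
      push_cast
      apply sum_le_sum
      intro n _
      split_ifs with h3
      · have : (2 : ℝ) ≤ NV A B t n := by exact_mod_cast h3
        linarith
      · have : (1 : ℝ) ≤ NV A B t n := by exact_mod_cast NV_pos A B t n
        linarith
    have h3 : C * (R / √t) * L ≤ (C + √(2 * C₁)) * (R / √t) * L := by
      apply mul_le_mul_of_nonneg_right _ hL0
      apply mul_le_mul_of_nonneg_right _ (by positivity)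
      linarith [Real.sqrt_nonneg (2 * C₁)]
    linarith
  · have h1 : ((((Ico M (M + L)).filter (fun n => 2 ≤ NV A B t n)).card : ℕ) : ℝ) ≤ L := by
      have := card_filter_le (Ico M (M + (L : ℤ))) (fun n => 2 ≤ NV A B t n)
      rw [Int.card_Ico] at this
      have e : (M + (L : ℤ) - M).toNat = L := by omega
      rw [e] at this
      exact_mod_cast this
    have h2 : √(t : ℝ) ≤ √(2 * C₁) * R := by
      apply Real.sqrt_le_iff.2
      refine ⟨by positivity, ?_⟩
      rw [mul_pow, Real.sq_sqrt (by positivity)]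
      have h3 : 1 + lA + lB ≤ 2 * R ^ 2 := by nlinarith
      calc (t : ℝ) ≤ C₁ * (1 + lA + lB) := hc
        _ ≤ C₁ * (2 * R ^ 2) := mul_le_mul_of_nonneg_left h3 hC₁.le
        _ = 2 * C₁ * R ^ 2 := by ring
    have h3 : 1 ≤ √(2 * C₁) * (R / √t) := by
      rw [mul_div_assoc', le_div_iff₀ hst, one_mul]
      exact h2
    have h4 : 0 ≤ C * (R / √t) := by positivity
    calc _ ≤ (L : ℝ) := h1
      _ = 1 * L := (one_mul _).symm
      _ ≤ (C + √(2 * C₁)) * (R / √t) * L := mul_le_mul_of_nonneg_right (by linarith) hL0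

end Pool.Agent.Q74.BL
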